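import Mathlib

/-
Statements of the steps of the project on circular unit values of `k + c (x + 1/x + y + 1/y)`
at torsion points of prime order.
-/

namespace Pool.Agent.MP_c1891a_nt.H91

open Finset Polynomial

/-- the value of `k + c (x + 1/x + y + 1/y)`. -/
def PV {F : Type*} [Field F] (k c : ℤ) (x y : F) : F := (k : F) + (c : F) * (x + x⁻¹ + y + y⁻¹)

/-- the toral range of the parameters. -/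
def Adm (k c : ℤ) : Prop := k ≠ 0 ∧ |k| < 4 * c ∧ IsCoprime k c

/-- `exp (2 π i x / p)`. -/
noncomputable def E (p : ℕ) (x : ℤ) : ℂ := Complex.exp (2 * Real.pi * Complex.I * x / p)

/-- no relation of size at most `B` between `a` and `b` modulo `p`. -/
def NoRel (p B : ℕ) (a b : ℤ) : Prop :=
  ∀ m n : ℤ, |m| ≤ B → |n| ≤ B → (p : ℤ) ∣ m * a + n * b → m = 0 ∧ n = 0

/-- `T ^ a * PV k c (T ^ a) (T ^ b)` for `b ≤ a`. -/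
noncomputable def FP (k c : ℤ) (a b : ℕ) : ℤ[X] :=
  C k * X ^ a + C c * (X ^ (2 * a) + 1 + X ^ (a + b) + X ^ (a - b))

/-- determinant method for lattice points near a transcendental analytic arc. -/
def SBPa : Prop :=
  ∀ (γ : ℝ → ℝ) (v₀ : ℝ), AnalyticOnNhd ℝ γ (Set.Icc (-v₀) v₀) →
    (∀ v₁ ∈ Set.Icc (-v₀) v₀, ∀ w : ℕ → ℕ → ℝ,
      (∀ᶠ v in nhds v₁, ∑ i ∈ range 4, ∑ j ∈ range 4, w i j * γ v ^ i * v ^ j = 0) →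
      ∀ i < 4, ∀ j < 4, w i j = 0) →
    ∀ C₁ : ℝ, 0 < C₁ → ∃ (C : ℝ) (A : ℕ) (p₀ : ℝ), ∀ p : ℝ, p₀ ≤ p →
      ∀ l₁ l₂ n₁ n₂ L N : ℝ, l₁ * n₂ ≠ l₂ * n₁ → |l₁| ≤ L → |l₂| ≤ L → |n₁| ≤ N → |n₂| ≤ N →
        L * N ≤ C₁ * p → ∀ S : Finset (ℝ × ℝ),
        (∀ q ∈ S, |q.2| ≤ v₀ ∧ |q.1 - γ q.2| ≤ (p ^ A)⁻¹ ∧
          (∃ m : ℤ, l₁ * q.1 + l₂ * q.2 = m) ∧ ∃ n : ℤ, n₁ * q.1 + n₂ * q.2 = n) →
        (∀ q ∈ S, ∀ q' ∈ S, q ≠ q' → p⁻¹ ≤ |q.2 - q'.2|) →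
        (S.card : ℝ) ≤ C * p ^ (2 / 9 : ℝ)

/-- few conjugates have a very small value. -/
def SBP : Prop :=
  ∀ k c : ℤ, Adm k c → ∃ (C : ℝ) (A p₀ : ℕ), ∀ p : ℕ, p.Prime → p₀ ≤ p → ∀ a b : ℤ,
    ¬ ((p : ℤ) ∣ a ∧ (p : ℤ) ∣ b) → ∀ S : Finset ℕ, S ⊆ range p →
      (∀ j ∈ S, ‖PV k c (E p (a * j)) (E p (b * j))‖ ≤ ((p : ℝ) ^ A)⁻¹) →
      (S.card : ℝ) ≤ C * (p : ℝ) ^ (2 / 9 : ℝ)

/-- a weak form of Dobrowolski's lower bound. -/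
def SDob : Prop :=
  ∃ c₀ : ℝ, 0 < c₀ ∧ ∀ g : ℤ[X], g.Monic → Irreducible g → ∀ t : ℂ, aeval t g = 0 → t ≠ 0 →
    (∀ n : ℕ, 0 < n → t ^ n ≠ 1) →
    c₀ ≤ (g.natDegree : ℝ) ^ (1 / 7 : ℝ) * (g.map (Int.castRingHom ℂ)).logMahlerMeasure

/-- the rows `2, 3` of `(v, w)` are the rows `0, 1` up to signs and order. -/
def SymRows (v w : Fin 4 → ℤ) : Prop :=
  ∃ ε ε' : ℤ, (ε = 1 ∨ ε = -1) ∧ (ε' = 1 ∨ ε' = -1) ∧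
    ((v 2 = ε * v 0 ∧ w 2 = ε * w 0 ∧ v 3 = ε' * v 1 ∧ w 3 = ε' * w 1) ∨
      (v 2 = ε * v 1 ∧ w 2 = ε * w 1 ∧ v 3 = ε' * v 0 ∧ w 3 = ε' * w 0))

/-- elimination: two monomial pull-backs of the curve meet in few points unless they agree. -/
def SElim : Prop :=
  ∀ k c : ℤ, Adm k c → ∀ v w : Fin 4 → ℤ, (∃ i j, v i * w j ≠ v j * w i) → ¬ SymRows v w →
    ∀ V W : ℕ, (∀ i, |v i| ≤ V) → (∀ i, |w i| ≤ W) → ∀ S : Finset (ℂ × ℂ),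
      (∀ q ∈ S, q.1 ≠ 0 ∧ q.2 ≠ 0 ∧
        PV k c (q.1 ^ v 0 * q.2 ^ w 0) (q.1 ^ v 1 * q.2 ^ w 1) = 0 ∧
        PV k c (q.1 ^ v 2 * q.2 ^ w 2) (q.1 ^ v 3 * q.2 ^ w 3) = 0) →
      S.card ≤ 8 * V * W

/-- two different one-parameter restrictions have no common zero except roots of unity. -/
def SDeg : Prop :=
  ∀ k c : ℤ, Adm k c → ∃ A₀ : ℕ, ∀ a₁ b₁ a₂ b₂ : ℕ, b₁ < a₁ → b₂ < a₂ →
    Nat.gcd (Nat.gcd a₁ b₁) (Nat.gcd a₂ b₂) = 1 → A₀ ≤ max a₁ a₂ →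
    ∀ t : ℂ, t ≠ 0 → (∀ n : ℕ, 0 < n → t ^ n ≠ 1) →
      PV k c (t ^ a₁) (t ^ b₁) = 0 → PV k c (t ^ a₂) (t ^ b₂) = 0 → a₁ = a₂ ∧ b₁ = b₂

/-- two very small values come from symmetric points. -/
def STwo : Prop :=
  ∀ k c : ℤ, Adm k c → ∃ B p₀ : ℕ, ∀ p : ℕ, p.Prime → p₀ ≤ p → ∀ a₁ b₁ a₂ b₂ : ℤ,
    NoRel p B a₁ b₁ → NoRel p B a₂ b₂ →
    ‖PV k c (E p a₁) (E p b₁)‖ ≤ Real.exp (-(p : ℝ) ^ (151 / 200 : ℝ)) →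
    ‖PV k c (E p a₂) (E p b₂)‖ ≤ Real.exp (-(p : ℝ) ^ (151 / 200 : ℝ)) →
    ∃ ε ε' : ℤ, (ε = 1 ∨ ε = -1) ∧ (ε' = 1 ∨ ε' = -1) ∧
      (((p : ℤ) ∣ a₂ - ε * a₁ ∧ (p : ℤ) ∣ b₂ - ε' * b₁) ∨
        ((p : ℤ) ∣ a₂ - ε * b₁ ∧ (p : ℤ) ∣ b₂ - ε' * a₁))

/-- uniform lower bound for the Mahler measure of the one-parameter restrictions. -/
def SMah : Prop :=
  ∀ k c : ℤ, Adm k c → ∃ m₀ : ℝ, 0 < m₀ ∧ ∃ B : ℕ, ∀ a b : ℕ, b < a → Nat.Coprime a b → B ≤ a →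
    m₀ ≤ ((FP k c a b).map (Int.castRingHom ℂ)).logMahlerMeasure

/-- the truncated logarithmic average over the conjugates is positive. -/
def SDef : Prop :=
  ∀ k c : ℤ, Adm k c → ∀ A : ℕ, ∃ m₀ : ℝ, 0 < m₀ ∧ ∃ B p₀ : ℕ, ∀ p : ℕ, p.Prime → p₀ ≤ p →
    ∀ a b : ℤ, NoRel p B a b →
      m₀ * p ≤ ∑ j ∈ range p,
        Real.log (max ‖PV k c (E p (a * j)) (E p (b * j))‖ ((p : ℝ) ^ A)⁻¹)

/-- the logarithmic embedding of a circular number. -/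
noncomputable def LogC (p : ℕ) (n : ℕ → ℤ) (j : ℕ) : ℝ :=
  ∑ i ∈ Ico 1 p, n i * Real.log ‖1 - E p (i * j)‖

/-- a circular number of bounded height has no isolated large spikes. -/
def SCirc : Prop :=
  ∀ H η θ : ℝ, 0 < η → θ < 1 → ∃ p₀ : ℕ, ∀ p : ℕ, p.Prime → p₀ ≤ p → ∀ n : ℕ → ℤ,
    ∑ j ∈ Ico 1 p, |LogC p n j| ≤ H * p →
    (∀ j ∈ Ico 1 p, (p : ℝ) ^ θ < |LogC p n j| →
      η * p ≤ |LogC p n j| ∧ |LogC p n (4 * j)| ≤ (p : ℝ) ^ θ) →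
    ∀ j ∈ Ico 1 p, |LogC p n j| ≤ (p : ℝ) ^ θ

end Pool.Agent.MP_c1891a_nt.H91
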