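import Pool.Agent.MP_c1891a_nt.H91.Spec

/-
Finite Fourier analysis on `ZMod p`: multiplicative and additive Parseval identities.
-/

namespace Pool.Agent.MP_c1891a_nt.H91

open Finset ComplexConjugate

theorem circ_pars {ι κ : Type*} [Fintype ι] [Fintype κ] [DecidableEq κ] (e : ι → κ → ℂ)
    (g : κ → ℂ) (N : ℝ)
    (h : ∀ x y, g y ≠ 0 → ∑ i, e i x * conj (e i y) = if x = y then (N : ℂ) else 0) :
    ∑ i, ‖∑ x, e i x * g x‖ ^ 2 = N * ∑ x, ‖g x‖ ^ 2 := by
  have h1 : ∀ z : ℂ, ((‖z‖ ^ 2 : ℝ) : ℂ) = z * conj z := fun z => by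
    rw [Complex.mul_conj, Complex.normSq_eq_norm_sq]
  apply Complex.ofReal_injective
  push_cast
  simp only [← Complex.ofReal_pow, h1, map_sum, map_mul, sum_mul, mul_sum]
  rw [sum_comm]
  refine sum_congr rfl fun y _ => ?_
  rw [sum_comm]
  have h2 : ∀ x, ∑ i, e i x * g x * (conj (e i y) * conj (g y)) =
      if x = y then (N : ℂ) * (g x * conj (g y)) else 0 := fun x => by
    by_cases hy : g y = 0
    · simp [hy]
    · have := h x y hy
      calc ∑ i, e i x * g x * (conj (e i y) * conj (g y))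
          = (∑ i, e i x * conj (e i y)) * (g x * conj (g y)) := by
            rw [sum_mul]; exact sum_congr rfl fun i _ => by ring
        _ = _ := by rw [this]; split_ifs <;> simp
  simp only [h2, sum_ite_eq', mem_univ, if_true]

variable {p : ℕ} [Fact p.Prime]

/-- the multiplicative Fourier transform. -/
noncomputable def mh (g : ZMod p → ℂ) (χ : DirichletCharacter ℂ p) : ℂ := ∑ x, χ x * g x

theorem mh_pars (g : ZMod p → ℂ) (h0 : g 0 = 0) :
    ∑ χ, ‖mh g χ‖ ^ 2 = ((p : ℝ) - 1) * ∑ x, ‖g x‖ ^ 2 := by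
  refine circ_pars (fun (χ : DirichletCharacter ℂ p) x => χ x) g _ fun x y hy => ?_
  have hy0 : y ≠ 0 := fun h => hy (h ▸ h0)
  have h1 : ∀ χ : DirichletCharacter ℂ p, χ x * conj (χ y) = χ y⁻¹ * χ x := fun χ => by
    rw [mul_comm, ← MulChar.inv_apply', ← MulChar.star_apply']
    rfl
  simp only [h1]
  rw [DirichletCharacter.sum_char_inv_mul_char_eq ℂ hy0.isUnit, Nat.totient_prime Fact.out,
    Nat.cast_sub (Fact.out : p.Prime).one_le]
  simp only [eq_comm (a := y)]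
  push_cast
  rfl

theorem mh_dil (g : ZMod p → ℂ) (h0 : g 0 = 0) (n : ZMod p) (χ : DirichletCharacter ℂ p) :
    mh (fun x => g (n * x)) χ = χ⁻¹ n * mh g χ := by
  unfold mh
  rcases eq_or_ne n 0 with rfl | hn
  · simp [h0, MulChar.map_zero]
  · rw [mul_sum, ← Equiv.sum_comp (Equiv.mulLeft₀ n hn) fun y => χ⁻¹ n * (χ y * g y)]
    refine sum_congr rfl fun x _ => ?_
    simp only [Equiv.mulLeft₀_apply, map_mul, MulChar.inv_apply']
    have : χ n⁻¹ * χ n = 1 := by rw [← map_mul, inv_mul_cancel₀ hn, map_one]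
    linear_combination (-(χ x * g (n * x))) * this

theorem mh_norm_le (g : ZMod p → ℂ) (χ : DirichletCharacter ℂ p) : ‖mh g χ‖ ≤ ∑ x, ‖g x‖ :=
  (norm_sum_le _ _).trans (sum_le_sum fun x _ => by
    rw [norm_mul]
    exact mul_le_of_le_one_left (norm_nonneg _) (χ.norm_le_one x))

theorem mh_sub (g g' : ZMod p → ℂ) (χ : DirichletCharacter ℂ p) :
    mh (fun x => g x - g' x) χ = mh g χ - mh g' χ := by
  simp only [mh, mul_sub, sum_sub_distrib]

theorem mh_sum (I : Finset ℕ) (a : ℕ → ℂ) (g : ZMod p → ℂ) (h0 : g 0 = 0)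
    (χ : DirichletCharacter ℂ p) :
    mh (fun x : ZMod p => ∑ n ∈ I, a n * g ((n : ZMod p) * x)) χ = (∑ n ∈ I, χ⁻¹ n * a n) * mh g χ := by
  have h1 : ∀ n : ℕ, ∑ x, χ x * (a n * g (n * x)) = χ⁻¹ n * a n * mh g χ := fun n => by
    have := mh_dil g h0 n χ
    unfold mh at this ⊢
    calc ∑ x, χ x * (a n * g (n * x)) = a n * ∑ x, χ x * g (n * x) := by
          rw [mul_sum]; exact sum_congr rfl fun x _ => by ring
      _ = _ := by rw [this]; ring
  rw [sum_mul, ← sum_congr rfl fun n _ => h1 n, sum_comm]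
  simp only [mh, mul_sum]

/-- the standard additive character. -/
noncomputable def ψ (p : ℕ) [Fact p.Prime] : AddChar (ZMod p) ℂ := ZMod.stdAddChar

theorem ψ_int (x : ℤ) : ψ p (x : ZMod p) = E p x := ZMod.stdAddChar_coe x

theorem ψ_norm (x : ZMod p) : ‖ψ p x‖ = 1 := by
  unfold ψ
  rw [ZMod.stdAddChar_apply]
  exact Circle.norm_coe _

theorem ψ_conj (x : ZMod p) : conj (ψ p x) = ψ p (-x) := by
  rw [AddChar.map_neg_eq_inv, Complex.inv_def, Complex.normSq_eq_norm_sq, ψ_norm]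
  simp

theorem ψ_sum (b : ZMod p) : ∑ x, ψ p (x * b) = if b = 0 then (p : ℂ) else 0 := by
  have := AddChar.sum_mulShift b (ZMod.isPrimitive_stdAddChar p)
  rw [ZMod.card] at this
  unfold ψ
  rw [this]
  split_ifs <;> simp

theorem ψ_pars (g : ZMod p → ℂ) :
    ∑ y, ‖∑ β, ψ p (-(y * β)) * g β‖ ^ 2 = p * ∑ β, ‖g β‖ ^ 2 := by
  refine circ_pars (fun y β => ψ p (-(y * β))) g _ fun x y _ => ?_
  have h1 : ∀ i : ZMod p, ψ p (-(i * x)) * conj (ψ p (-(i * y))) = ψ p (i * (y - x)) := fun i => by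
    rw [ψ_conj, ← AddChar.map_add_eq_mul]
    congr 1
    ring
  simp only [h1, ψ_sum, sub_eq_zero, eq_comm (a := y)]
  simp

theorem ψ_inv (c : ZMod p → ℂ) (y : ZMod p) :
    ∑ β, ψ p (-(y * β)) * ∑ k, c k * ψ p (k * β) = p * c y := by
  simp only [mul_sum]
  rw [sum_comm]
  have h1 : ∀ k, ∑ β, ψ p (-(y * β)) * (c k * ψ p (k * β)) =
      if k = y then (p : ℂ) * c k else 0 := fun k => by
    have h2 : ∀ β, ψ p (-(y * β)) * (c k * ψ p (k * β)) = c k * ψ p (β * (k - y)) := fun β => by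
      rw [mul_left_comm, ← AddChar.map_add_eq_mul]
      congr 2
      ring
    simp only [h2, ← mul_sum, ψ_sum, sub_eq_zero]
    split_ifs <;> simp [mul_comm]
  simp only [h1, sum_ite_eq', mem_univ, if_true]

end Pool.Agent.MP_c1891a_nt.H91
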