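import Pool.Agent.MP_c1891a_nt.H91.CircA

/-
Elementary estimates for weighted character sums.
-/

namespace Pool.Agent.MP_c1891a_nt.H91

open Finset Filter Topology

theorem circ_abel (a : ℕ → ℂ) (w : ℕ → ℝ) (B : ℝ) (hB : ∀ N, ‖∑ m ∈ range N, a m‖ ≤ B)
    (hw : ∀ m, w (m + 1) ≤ w m) (hw0 : ∀ m, 0 ≤ w m) (N : ℕ) :
    ‖∑ m ∈ range N, a m * w m‖ ≤ B * w 0 := by
  have key : ∀ N, ‖∑ m ∈ range (N + 1), a m * w m - (∑ m ∈ range (N + 1), a m) * w N‖ ≤
      B * (w 0 - w N) := by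
    intro N
    induction N with
    | zero => simp
    | succ N ih =>
      have h1 : ∑ m ∈ range (N + 1 + 1), a m * w m - (∑ m ∈ range (N + 1 + 1), a m) * w (N + 1) =
          (∑ m ∈ range (N + 1), a m * w m - (∑ m ∈ range (N + 1), a m) * w N) +
            (∑ m ∈ range (N + 1), a m) * ((w N - w (N + 1) : ℝ) : ℂ) := by
        rw [sum_range_succ (fun m => a m * w m) (N + 1), sum_range_succ a (N + 1)]
        push_cast
        ring
      rw [h1]
      refine (norm_add_le _ _).trans ?_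
      rw [norm_mul, Complex.norm_real, Real.norm_of_nonneg (sub_nonneg.2 (hw N))]
      have := mul_le_mul_of_nonneg_right (hB (N + 1)) (sub_nonneg.2 (hw N))
      linarith
  have hB0 : 0 ≤ B := by simpa using hB 0
  rcases N with _ | N
  · simpa using mul_nonneg hB0 (hw0 0)
  · have h1 := norm_add_le (∑ m ∈ range (N + 1), a m * w m - (∑ m ∈ range (N + 1), a m) * w N)
      ((∑ m ∈ range (N + 1), a m) * w N)
    rw [sub_add_cancel, norm_mul, Complex.norm_real, Real.norm_of_nonneg (hw0 N)] at h1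
    have := mul_le_mul_of_nonneg_right (hB (N + 1)) (hw0 N)
    have := key N
    linarith

variable {p : ℕ} [Fact p.Prime]

theorem circ_sum_range {M : Type*} [AddCommMonoid M] (g : ZMod p → M) :
    ∑ m ∈ range p, g m = ∑ x, g x := by
  refine sum_bij' (fun m _ => (m : ZMod p)) (fun x _ => x.val) (fun _ _ => mem_univ _)
    (fun x _ => mem_range.2 (ZMod.val_lt x)) (fun m hm => ZMod.val_cast_of_lt (mem_range.1 hm))
    (fun x _ => ZMod.natCast_zmod_val x) fun _ _ => rfl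

theorem circ_char_sum (χ : DirichletCharacter ℂ p) (hχ : χ ≠ 1) (Y N : ℕ) :
    ‖∑ m ∈ range N, χ ((Y + m : ℕ) : ZMod p)‖ ≤ p := by
  induction N using Nat.strong_induction_on with
  | _ N ih =>
    by_cases h : N ≤ p
    · refine (norm_sum_le _ _).trans ((sum_le_card_nsmul _ _ 1 fun m _ =>
        χ.norm_le_one _).trans ?_)
      simpa using h
    · obtain ⟨M, rfl⟩ : ∃ M, N = M + p := ⟨N - p, by omega⟩
      rw [sum_range_add]
      have h1 : ∑ x ∈ range p, χ ((Y + (M + x) : ℕ) : ZMod p) = 0 := by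
        have := circ_sum_range (p := p) fun x => χ ((Y + M : ℕ) + x)
        rw [Equiv.sum_comp (Equiv.addLeft ((Y + M : ℕ) : ZMod p)) χ |>.symm.symm.trans
          (MulChar.sum_eq_zero_of_ne_one hχ) |> fun h => (this.trans h).symm]
        exact sum_congr rfl fun x _ => by push_cast; rw [add_assoc]
      rw [h1, add_zero]
      exact ih M (by have := (Fact.out : p.Prime).pos; omega)

/-- a weighted character sum. -/
noncomputable def Lw (χ : DirichletCharacter ℂ p) (w : ℕ → ℝ) : ℂ := ∑' m : ℕ, χ m * w m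

theorem circ_summable (χ : DirichletCharacter ℂ p) {w : ℕ → ℝ} (hs : Summable w) :
    Summable fun m : ℕ => χ m * w m :=
  Summable.of_norm_bounded hs.abs fun m => by
    rw [norm_mul, Complex.norm_real, Real.norm_eq_abs]
    exact mul_le_of_le_one_left (abs_nonneg _) (χ.norm_le_one _)

theorem circ_tail (χ : DirichletCharacter ℂ p) (hχ : χ ≠ 1) {w : ℕ → ℝ} (hs : Summable w) (Y : ℕ)
    (hw : ∀ m, w (Y + (m + 1)) ≤ w (Y + m)) (hw0 : ∀ m, 0 ≤ w m) :
    ‖Lw χ w - ∑ m ∈ range Y, χ m * w m‖ ≤ p * w Y := by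
  have h1 := (circ_summable χ hs).hasSum.tendsto_sum_nat
  have h2 : Tendsto (fun N => ‖∑ m ∈ range (Y + N), χ m * (w m : ℂ) - ∑ m ∈ range Y, χ m * w m‖)
      atTop (𝓝 ‖Lw χ w - ∑ m ∈ range Y, χ m * w m‖) :=
    ((h1.comp (tendsto_atTop_mono (fun N => Nat.le_add_left N Y) tendsto_id)).sub_const _).norm
  refine le_of_tendsto' h2 fun N => ?_
  rw [sum_range_add, add_sub_cancel_left]
  exact circ_abel (fun m => χ ((Y + m : ℕ) : ZMod p)) (fun m => w (Y + m)) p
    (circ_char_sum χ hχ Y) hw (fun m => hw0 _) N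

/-- the weight `m ^ (-(1 + x))`. -/
noncomputable def Wt (x : ℝ) (m : ℕ) : ℝ := (m : ℝ) ^ (-(1 + x))

theorem Wt_nonneg (x : ℝ) (m : ℕ) : 0 ≤ Wt x m := Real.rpow_nonneg (Nat.cast_nonneg _) _

theorem Wt_zero {x : ℝ} (hx : 0 < x) : Wt x 0 = 0 := by
  simp only [Wt, Nat.cast_zero]
  exact Real.zero_rpow (by linarith)

theorem Wt_one (x : ℝ) : Wt x 1 = 1 := by simp [Wt]

theorem Wt_eq (x : ℝ) {m : ℕ} (hm : 0 < m) : Wt x m = (m : ℝ)⁻¹ * Real.exp (-(x * Real.log m)) := by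
  have : (0 : ℝ) < m := by exact_mod_cast hm
  rw [Wt, Real.rpow_def_of_pos this, show Real.log m * -(1 + x) = -Real.log m + -(x * Real.log m)
    by ring, Real.exp_add, Real.exp_neg, Real.exp_log this]

theorem Wt_le {x : ℝ} (hx : 0 < x) (m : ℕ) : Wt x m ≤ (m : ℝ)⁻¹ := by
  rcases m.eq_zero_or_pos with rfl | hm
  · simp [Wt_zero hx]
  · rw [Wt_eq x hm]
    refine mul_le_of_le_one_right (by positivity) (Real.exp_le_one_iff.2 ?_)
    have := Real.log_natCast_nonneg m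
    nlinarith

theorem Wt_anti {x : ℝ} (hx : 0 < x) {m n : ℕ} (hm : 0 < m) (h : m ≤ n) : Wt x n ≤ Wt x m :=
  Real.rpow_le_rpow_of_nonpos (by exact_mod_cast hm) (by exact_mod_cast h) (by linarith)

theorem Wt_mul (x : ℝ) (m n : ℕ) : Wt x (m * n) = Wt x m * Wt x n := by
  simp only [Wt, Nat.cast_mul]
  exact Real.mul_rpow (Nat.cast_nonneg _) (Nat.cast_nonneg _)

theorem Wt_summable {x : ℝ} (hx : 0 < x) : Summable (Wt x) :=
  Real.summable_nat_rpow.2 (by linarith)

theorem Wt_sum {x : ℝ} (hx : 0 < x) (T : ℕ) : ∑ t ∈ range T, Wt x t ≤ 1 + x⁻¹ := by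
  have key : ∀ T : ℕ, ∑ t ∈ range (T + 2), Wt x t ≤
      1 + x⁻¹ * (1 - Real.exp (-(x * Real.log (T + 1 : ℕ)))) := by
    intro T
    induction T with
    | zero => simp [sum_range_succ, Wt_zero hx, Wt_one]
    | succ T ih =>
      rw [show T + 1 + 2 = T + 2 + 1 by ring, sum_range_succ, Wt_eq x (m := T + 2) (by omega)]
      have ha : (0 : ℝ) < (T + 1 : ℕ) := by positivity
      have hb : (0 : ℝ) < (T + 2 : ℕ) := by positivity
      have h1 : ((T + 2 : ℕ) : ℝ)⁻¹ ≤ Real.log (T + 2 : ℕ) - Real.log (T + 1 : ℕ) := by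
        have := Real.log_le_sub_one_of_pos (div_pos ha hb)
        rw [Real.log_div ha.ne' hb.ne'] at this
        have h2 : ((T + 1 : ℕ) : ℝ) / (T + 2 : ℕ) - 1 = -((T + 2 : ℕ) : ℝ)⁻¹ := by
          field_simp
          push_cast
          ring
        linarith
      have h2 : Real.exp (-(x * Real.log (T + 1 : ℕ))) = Real.exp (-(x * Real.log (T + 2 : ℕ))) *
          Real.exp (x * (Real.log (T + 2 : ℕ) - Real.log (T + 1 : ℕ))) := by
        rw [← Real.exp_add]
        congr 1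
        ring
      have h3 := Real.add_one_le_exp (x * (Real.log (T + 2 : ℕ) - Real.log (T + 1 : ℕ)))
      have h4 := Real.exp_pos (-(x * Real.log (T + 2 : ℕ)))
      have h5 : x * ((T + 2 : ℕ) : ℝ)⁻¹ * Real.exp (-(x * Real.log (T + 2 : ℕ))) ≤
          Real.exp (-(x * Real.log (T + 1 : ℕ))) - Real.exp (-(x * Real.log (T + 2 : ℕ))) := by
        rw [h2]
        have := mul_le_mul_of_nonneg_left h1 hx.le
        nlinarith
      have h6 := mul_le_mul_of_nonneg_left h5 (inv_nonneg.2 hx.le)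
      rw [← mul_assoc, ← mul_assoc, inv_mul_cancel₀ hx.ne', one_mul] at h6
      rw [show T + 1 + 1 = T + 2 by ring]
      linarith
  have h1 : ∑ t ∈ range T, Wt x t ≤ ∑ t ∈ range (T + 2), Wt x t :=
    sum_le_sum_of_subset_of_nonneg (range_mono (by omega)) fun t _ _ => Wt_nonneg x t
  have h2 := Real.exp_pos (-(x * Real.log (T + 1 : ℕ)))
  have h3 := key T
  have h4 := inv_pos.2 hx
  nlinarith

theorem circ_harm (Y : ℕ) : ∑ m ∈ range (Y + 1), (m : ℝ)⁻¹ ≤ 1 + Real.log Y := by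
  have := harmonic_le_one_add_log Y
  rw [harmonic] at this
  rw [sum_range_succ']
  push_cast at this ⊢
  simpa using this

theorem Lw_eq_LSeries (χ : DirichletCharacter ℂ p) (b : ℕ → ℝ) (x : ℝ) :
    LSeries (fun n : ℕ => χ n * b n) (1 + x) = Lw χ fun n => b n * Wt x n := by
  unfold LSeries Lw
  refine tsum_congr fun n => ?_
  rw [LSeries.term_def₀ (by simp [MulChar.map_zero])]
  simp only [Wt]
  rw [Complex.ofReal_mul, Complex.ofReal_cpow (Nat.cast_nonneg n)]
  push_cast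
  ring

theorem Lw_le_zeta (χ : DirichletCharacter ℂ p) {x : ℝ} (hx : 0 < x) :
    ‖Lw χ (Wt x)‖ ≤ 1 + x⁻¹ := by
  refine le_of_tendsto' (circ_summable χ (Wt_summable hx)).hasSum.tendsto_sum_nat.norm fun N => ?_
  refine (norm_sum_le _ _).trans ((sum_le_sum fun m _ => ?_).trans (Wt_sum hx N))
  rw [norm_mul, Complex.norm_real, Real.norm_of_nonneg (Wt_nonneg x m)]
  exact mul_le_of_le_one_left (Wt_nonneg x m) (χ.norm_le_one _)

theorem Lw_le_log (χ : DirichletCharacter ℂ p) (hχ : χ ≠ 1) {x : ℝ} (hx : 0 < x) :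
    ‖Lw χ (Wt x)‖ ≤ 2 + Real.log p := by
  have hp := (Fact.out : p.Prime).pos
  have h1 := circ_tail χ hχ (Wt_summable hx) (p + 1)
    (fun m => Wt_anti hx (by omega) (by omega)) (Wt_nonneg x)
  have h2 : ‖∑ m ∈ range (p + 1), χ m * (Wt x m : ℂ)‖ ≤ 1 + Real.log p := by
    refine (norm_sum_le _ _).trans ((sum_le_sum fun m _ => ?_).trans (circ_harm p))
    rw [norm_mul, Complex.norm_real, Real.norm_of_nonneg (Wt_nonneg x m)]
    exact (mul_le_of_le_one_left (Wt_nonneg x m) (χ.norm_le_one _)).trans (Wt_le hx m)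
  have h3 : (p : ℝ) * Wt x (p + 1) ≤ 1 := by
    have := (Wt_anti hx hp (Nat.le_succ p)).trans (Wt_le hx p)
    have h4 : (0 : ℝ) < p := by exact_mod_cast hp
    calc (p : ℝ) * Wt x (p + 1) ≤ p * (p : ℝ)⁻¹ := mul_le_mul_of_nonneg_left this h4.le
      _ = 1 := mul_inv_cancel₀ h4.ne'
  have h4 := norm_add_le (Lw χ (Wt x) - ∑ m ∈ range (p + 1), χ m * (Wt x m : ℂ))
    (∑ m ∈ range (p + 1), χ m * (Wt x m : ℂ))
  rw [sub_add_cancel] at h4
  linarith

theorem Lw_lower (χ : DirichletCharacter ℂ p) (hχ : χ ^ 2 ≠ 1) {x : ℝ} (hx : 0 < x) :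
    1 ≤ (1 + x⁻¹) ^ 3 * ‖Lw χ (Wt x)‖ ^ 4 * (2 + Real.log p) := by
  have h := χ.norm_LSeries_product_ge_one hx 0
  have h1 : ∀ φ : DirichletCharacter ℂ p, LSeries (fun n : ℕ => φ n) (1 + x) = Lw φ (Wt x) :=
    fun φ => by simpa using Lw_eq_LSeries φ (fun _ => 1) x
  simp only [Complex.ofReal_zero, mul_zero, add_zero, h1, norm_mul, norm_pow] at h
  refine h.trans ?_
  gcongr
  · exact Lw_le_zeta 1 hx
  · exact Lw_le_log _ hχ hx

theorem Lw_mul_mu (χ : DirichletCharacter ℂ p) {x : ℝ} (hx : 0 < x) :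
    Lw χ (Wt x) * Lw χ (fun n => (ArithmeticFunction.moebius n : ℝ) * Wt x n) = 1 := by
  have h := DirichletCharacter.LSeries.mul_mu_eq_one χ (s := 1 + x) (by simpa using hx)
  have h1 : LSeries (fun n : ℕ => χ n) (1 + x) = Lw χ (Wt x) := by
    simpa using Lw_eq_LSeries χ (fun _ => 1) x
  rw [← h, h1, ← Lw_eq_LSeries χ _ x]
  congr 2

end Pool.Agent.MP_c1891a_nt.H91
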