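import Pool.Agent.MP_c1891a_nt.H91.CircB

/-
Mean square approximation of the inverse of `L(1, χ)` by a short Dirichlet polynomial.
-/

namespace Pool.Agent.MP_c1891a_nt.H91

open Finset Filter Topology

variable {p : ℕ} [Fact p.Prime]

theorem circ_class {x : ℝ} (hx : 0 < x) (K N : ℕ) (y : ZMod p) :
    ∑ m ∈ (Ico (K + 1) N).filter (fun m : ℕ => (m : ZMod p) = y), Wt x m ≤
      (if K < y.val then (y.val : ℝ)⁻¹ else 0) + (1 + x⁻¹) / p := by
  have hp := (Fact.out : p.Prime).pos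
  rw [← sum_filter_add_sum_filter_not _ fun m => m < p]
  refine add_le_add ?_ ?_
  · have h1 : ∀ m ∈ ((Ico (K + 1) N).filter (fun m : ℕ => (m : ZMod p) = y)).filter
        fun m => m < p, m = y.val ∧ K < y.val := fun m hm => by
      simp only [mem_filter, mem_Ico] at hm
      have : m = y.val := by rw [← hm.1.2, ZMod.val_cast_of_lt hm.2]
      omega
    split_ifs with h
    · refine (sum_le_sum_of_subset_of_nonneg (t := {y.val})
        (fun m hm => mem_singleton.2 (h1 m hm).1) fun m _ _ => Wt_nonneg x m).trans ?_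
      rw [sum_singleton]
      exact Wt_le hx _
    · exact (sum_eq_zero fun m hm => absurd (h1 m hm).2 h).le
  · set s := ((Ico (K + 1) N).filter (fun m : ℕ => (m : ZMod p) = y)).filter fun m => ¬ m < p
    have h1 : ∀ m ∈ s, Wt x m ≤ Wt x (m / p) * (p : ℝ)⁻¹ := fun m hm => by
      simp only [s, mem_filter, not_lt] at hm
      have h2 : 0 < m / p := Nat.div_pos hm.2 hp
      refine (Wt_anti hx (Nat.mul_pos h2 hp) (Nat.div_mul_le_self m p)).trans ?_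
      rw [Wt_mul]
      exact mul_le_mul_of_nonneg_left (Wt_le hx p) (Wt_nonneg _ _)
    refine (sum_le_sum h1).trans ?_
    rw [← sum_mul, div_eq_mul_inv]
    refine mul_le_mul_of_nonneg_right ?_ (by positivity)
    rw [← sum_image (s := s) (g := fun m => m / p) (f := Wt x) fun m hm n hn h => ?_]
    · refine (sum_le_sum_of_subset_of_nonneg (fun t ht => ?_) fun t _ _ => Wt_nonneg x t).trans
        (Wt_sum hx N)
      obtain ⟨m, hm, rfl⟩ := mem_image.1 ht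
      simp only [s, mem_filter, mem_Ico] at hm
      exact mem_range.2 ((Nat.div_le_self m p).trans_lt hm.1.1.2)
    · simp only [s, coe_filter, mem_filter, Set.mem_ofPred_eq] at hm hn
      have h3 : m % p = n % p := (ZMod.natCast_eq_natCast_iff' m n p).1 (hm.1.2.trans hn.1.2.symm)
      rw [← Nat.div_add_mod m p, ← Nat.div_add_mod n p, h3]
      simp only at h
      rw [h]

theorem circ_meansq {x : ℝ} (hx : 0 < x) (b : ℕ → ℝ) (hb : ∀ m, |b m| ≤ Wt x m) (K : ℕ) :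
    ∑ χ : DirichletCharacter ℂ p, ‖Lw χ b - ∑ m ∈ range (K + 1), χ m * b m‖ ^ 2 ≤
      ((p : ℝ) - 1) * (4 / (K + 1) + 2 * (1 + x⁻¹) ^ 2 / p) := by
  have hp := (Fact.out : p.Prime).pos
  have hp' : (1 : ℝ) ≤ p := by exact_mod_cast hp
  have hs : Summable b := Summable.of_norm_bounded (Wt_summable hx) hb
  have h1 : Tendsto (fun N => ∑ χ : DirichletCharacter ℂ p,
      ‖∑ m ∈ range N, χ m * (b m : ℂ) - ∑ m ∈ range (K + 1), χ m * b m‖ ^ 2) atTop
      (𝓝 (∑ χ : DirichletCharacter ℂ p, ‖Lw χ b - ∑ m ∈ range (K + 1), χ m * b m‖ ^ 2)) :=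
    tendsto_finsetSum _ fun χ _ =>
      (((circ_summable χ hs).hasSum.tendsto_sum_nat.sub_const _).norm).pow 2
  refine le_of_tendsto h1 (eventually_atTop.2 ⟨K + 1, fun N hN => ?_⟩)
  set g : ZMod p → ℂ := fun y => if y = 0 then 0 else
    ∑ m ∈ (Ico (K + 1) N).filter (fun m : ℕ => (m : ZMod p) = y), (b m : ℂ) with hg
  have h2 : ∀ χ : DirichletCharacter ℂ p,
      ∑ m ∈ range N, χ m * (b m : ℂ) - ∑ m ∈ range (K + 1), χ m * b m = mh g χ := fun χ => by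
    rw [← sum_Ico_eq_sub _ hN, mh, ← sum_fiberwise (Ico (K + 1) N) (fun m : ℕ => (m : ZMod p))]
    refine sum_congr rfl fun y _ => ?_
    rw [sum_congr rfl fun m hm => by rw [(mem_filter.1 hm).2], ← mul_sum]
    simp only [hg]
    split_ifs with h
    · simp [h, MulChar.map_zero]
    · rfl
  simp only [h2]
  rw [mh_pars g (by simp [hg])]
  refine mul_le_mul_of_nonneg_left ?_ (by linarith)
  have h3 : ∀ y, ‖g y‖ ^ 2 ≤ 2 * (if K < y.val then ((y.val : ℝ) ^ 2)⁻¹ else 0) +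
      2 * ((1 + x⁻¹) / p) ^ 2 := fun y => by
    have h4 : ‖g y‖ ≤ (if K < y.val then (y.val : ℝ)⁻¹ else 0) + (1 + x⁻¹) / p := by
      refine le_trans ?_ (circ_class hx K N y)
      simp only [hg]
      split_ifs
      · simpa using sum_nonneg fun m _ => Wt_nonneg x m
      · exact (norm_sum_le _ _).trans (sum_le_sum fun m _ => by simpa using hb m)
    refine (pow_le_pow_left₀ (norm_nonneg _) h4 2).trans ?_
    split_ifs
    · rw [← inv_pow]
      nlinarith [sq_nonneg ((y.val : ℝ)⁻¹ - (1 + x⁻¹) / p)]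
    · nlinarith [sq_nonneg ((1 + x⁻¹) / p)]
  refine (sum_le_sum fun y _ => h3 y).trans ?_
  rw [sum_add_distrib, ← mul_sum, sum_const, card_univ, ZMod.card, nsmul_eq_mul,
    ← circ_sum_range]
  have h5 : ∑ m ∈ range p, (if K < (m : ZMod p).val then (((m : ZMod p).val : ℝ) ^ 2)⁻¹ else 0) ≤
      2 / (K + 1) := by
    refine le_trans (le_of_eq ?_) (sum_Ioo_inv_sq_le K p)
    rw [sum_congr rfl fun m hm => by rw [ZMod.val_cast_of_lt (mem_range.1 hm)], ← sum_filter]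
    congr 1
    ext m
    simp [and_comm]
  have h6 : (p : ℝ) * (2 * ((1 + x⁻¹) / p) ^ 2) = 2 * (1 + x⁻¹) ^ 2 / p := by field_simp
  have h7 : (4 : ℝ) / (K + 1) = 2 * (2 / (K + 1)) := by ring
  linarith

/-- the weight `r ^ m / m`. -/
noncomputable def Wr (r : ℝ) (m : ℕ) : ℝ := r ^ m / m

theorem Wr_summable {r : ℝ} (h0 : 0 ≤ r) (h1 : r < 1) : Summable (Wr r) :=
  Summable.of_nonneg_of_le (fun m => by unfold Wr; positivity) (fun m => by
    rcases m.eq_zero_or_pos with rfl | hm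
    · simp [Wr]
    · exact div_le_self (by positivity) (by exact_mod_cast hm)) (summable_geometric_of_lt_one h0 h1)

theorem circ_close (χ : DirichletCharacter ℂ p) (hχ : χ ≠ 1) {x r : ℝ} (hx : 0 < x) (h0 : 0 ≤ r)
    (h1 : r < 1) (hr : 1 - r ≤ ((p : ℝ) ^ 3)⁻¹) :
    ‖Lw χ (Wr r) - Lw χ (Wt x)‖ ≤
      3 * (p : ℝ)⁻¹ + x * (2 * Real.log p * (1 + 2 * Real.log p)) := by
  have hp := (Fact.out : p.Prime).pos
  have hp' : (0 : ℝ) < p := by exact_mod_cast hp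
  have hY : (p : ℝ) * ((p ^ 2 + 1 : ℕ) : ℝ)⁻¹ ≤ (p : ℝ)⁻¹ := by
    rw [← div_eq_mul_inv, div_le_iff₀ (by positivity)]
    push_cast
    rw [mul_add, mul_one, show (p : ℝ)⁻¹ * (p : ℝ) ^ 2 = p by field_simp]
    have := inv_pos.2 hp'
    linarith
  have t1 := circ_tail χ hχ (Wr_summable h0 h1) (p ^ 2 + 1) (fun m => by
    unfold Wr
    refine div_le_div₀ (by positivity) (pow_le_pow_of_le_one h0 h1.le (by omega)) (by positivity)
      (by exact_mod_cast (by omega))) (fun m => by unfold Wr; positivity)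
  have t2 := circ_tail χ hχ (Wt_summable hx) (p ^ 2 + 1)
    (fun m => Wt_anti hx (by omega) (by omega)) (Wt_nonneg x)
  have t1' : (p : ℝ) * Wr r (p ^ 2 + 1) ≤ (p : ℝ)⁻¹ := by
    refine le_trans (mul_le_mul_of_nonneg_left ?_ hp'.le) hY
    unfold Wr
    rw [div_eq_mul_inv]
    exact mul_le_of_le_one_left (by positivity) (pow_le_one₀ h0 h1.le)
  have t2' : (p : ℝ) * Wt x (p ^ 2 + 1) ≤ (p : ℝ)⁻¹ :=
    le_trans (mul_le_mul_of_nonneg_left (Wt_le hx _) hp'.le) hY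
  have hl : Real.log ((p ^ 2 : ℕ) : ℝ) = 2 * Real.log p := by push_cast; simp
  have t3 : ‖∑ m ∈ range (p ^ 2 + 1), χ m * (Wr r m : ℂ) -
      ∑ m ∈ range (p ^ 2 + 1), χ m * (Wt x m : ℂ)‖ ≤
      (p : ℝ)⁻¹ + x * (2 * Real.log p * (1 + 2 * Real.log p)) := by
    rw [← sum_sub_distrib, sum_range_succ']
    simp only [Nat.cast_zero, MulChar.map_zero, zero_mul, sub_self, add_zero]
    have h2 : ∀ m ∈ range (p ^ 2), ‖χ ((m + 1 : ℕ) : ZMod p) * (Wr r (m + 1) : ℂ) -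
        χ ((m + 1 : ℕ) : ZMod p) * (Wt x (m + 1) : ℂ)‖ ≤
        (1 - r) + x * (2 * Real.log p) * ((m + 1 : ℕ) : ℝ)⁻¹ := fun m hm => by
      rw [← mul_sub, norm_mul, ← Complex.ofReal_sub, Complex.norm_real, Real.norm_eq_abs]
      refine (mul_le_of_le_one_left (abs_nonneg _) (χ.norm_le_one _)).trans ?_
      have hm0 : (0 : ℝ) < (m + 1 : ℕ) := by positivity
      have h3 : 1 - ((m + 1 : ℕ) : ℝ) * (1 - r) ≤ r ^ (m + 1) := by
        have := one_add_mul_le_pow (a := r - 1) (by linarith) (m + 1)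
        rw [add_sub_cancel] at this
        linarith
      have h4 : r ^ (m + 1) ≤ 1 := pow_le_one₀ h0 h1.le
      have h5 := Real.add_one_le_exp (-(x * Real.log (m + 1 : ℕ)))
      have h6 : 0 ≤ Real.log (m + 1 : ℕ) := Real.log_natCast_nonneg _
      have h7 : Real.exp (-(x * Real.log (m + 1 : ℕ))) ≤ 1 :=
        Real.exp_le_one_iff.2 (by nlinarith)
      have h8 : Real.log (m + 1 : ℕ) ≤ 2 * Real.log p := by
        rw [← hl]
        exact Real.log_le_log hm0 (by exact_mod_cast mem_range.1 hm)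
      have h9 := mul_le_mul_of_nonneg_left h8 hx.le
      rw [Wt_eq x (Nat.succ_pos m), Wr, div_eq_inv_mul, ← mul_sub, abs_mul,
        abs_of_pos (inv_pos.2 hm0), inv_mul_le_iff₀ hm0, mul_add,
        mul_comm (x * (2 * Real.log p)), ← mul_assoc _ _ (x * _), mul_inv_cancel₀ hm0.ne', one_mul,
        abs_le]
      have h10 : 0 ≤ ((m + 1 : ℕ) : ℝ) * (1 - r) := mul_nonneg hm0.le (by linarith)
      have h11 : 0 ≤ x * Real.log (m + 1 : ℕ) := mul_nonneg hx.le h6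
      constructor <;> linarith
    refine (norm_sum_le _ _).trans ((sum_le_sum h2).trans ?_)
    rw [sum_add_distrib, sum_const, card_range, nsmul_eq_mul, ← mul_sum]
    have h3 := circ_harm (p ^ 2)
    rw [sum_range_succ', hl] at h3
    simp only [Nat.cast_zero, inv_zero, add_zero] at h3
    have h4 : ((p ^ 2 : ℕ) : ℝ) * (1 - r) ≤ (p : ℝ)⁻¹ := by
      push_cast
      calc (p : ℝ) ^ 2 * (1 - r) ≤ p ^ 2 * ((p : ℝ) ^ 3)⁻¹ := by gcongr
        _ = (p : ℝ)⁻¹ := by field_simp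
    have h5 : 0 ≤ x * (2 * Real.log p) := by have := Real.log_natCast_nonneg p; positivity
    have := mul_le_mul_of_nonneg_left h3 h5
    linarith
  have := norm_add₃_le (a := Lw χ (Wr r) - ∑ m ∈ range (p ^ 2 + 1), χ m * (Wr r m : ℂ))
    (b := ∑ m ∈ range (p ^ 2 + 1), χ m * (Wr r m : ℂ) - ∑ m ∈ range (p ^ 2 + 1), χ m * (Wt x m : ℂ))
    (c := -(Lw χ (Wt x) - ∑ m ∈ range (p ^ 2 + 1), χ m * (Wt x m : ℂ)))
  rw [norm_neg, show ∀ a b c d : ℂ, a - b + (b - c) + -(d - c) = a - d from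
    fun a b c d => by ring] at this
  linarith

theorem circ_Lest (K : ℕ) {x r τ : ℝ} (hx : 0 < x) (hxp : (p : ℝ)⁻¹ ≤ x ^ 4) (hp3 : 3 ≤ p)
    (hτ0 : 0 < τ) (hτ : τ ≤ 1 / 2) (hsm : 9 ^ 4 * 24 * x * Real.log p ^ 9 ≤ τ ^ 4) (h0 : 0 ≤ r)
    (h1 : r < 1) (hr : 1 - r ≤ ((p : ℝ) ^ 3)⁻¹) :
    ∃ a : ℕ → ℝ, a 1 = 1 ∧ (∀ n, |a n| ≤ (n : ℝ)⁻¹) ∧
      (∀ χ : DirichletCharacter ℂ p, χ ^ 2 ≠ 1 → x ≤ ‖Lw χ (Wr r)‖) ∧
      ∑ χ : DirichletCharacter ℂ p with χ ^ 2 ≠ 1,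
        ‖(Lw χ (Wr r))⁻¹ - ∑ m ∈ range (K + 1), χ m * a m‖ ^ 2 ≤
        ((p : ℝ) - 1) * (8 / (K + 1) + 112 * τ ^ 2) := by
  classical
  have hp' : (3 : ℝ) ≤ p := by exact_mod_cast hp3
  have hl : 1 ≤ Real.log p := by
    rw [Real.le_log_iff_exp_le (by linarith)]
    exact Real.exp_one_lt_d9.le.trans (by linarith)
  have hl9 : 1 ≤ Real.log p ^ 9 := one_le_pow₀ hl
  have hτ4 : τ ^ 4 ≤ τ := by
    have := pow_le_pow_of_le_one hτ0.le (by linarith) (show 1 ≤ 4 by norm_num)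
    simpa using this
  have hxτ : x ≤ τ := by nlinarith
  have hx1 : x ≤ 1 := by linarith
  have hZ : 1 + x⁻¹ ≤ 2 * x⁻¹ := by
    have : 1 ≤ x⁻¹ := one_le_inv₀ hx |>.2 hx1
    linarith
  set b : ℕ → ℝ := fun n => (ArithmeticFunction.moebius n : ℝ) * Wt x n with hb
  have hb1 : ∀ m, |b m| ≤ Wt x m := fun m => by
    rw [hb, abs_mul, abs_of_nonneg (Wt_nonneg x m)]
    refine mul_le_of_le_one_left (Wt_nonneg x m) ?_
    exact_mod_cast ArithmeticFunction.abs_moebius_le_one (n := m)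
  have key : ∀ χ : DirichletCharacter ℂ p, χ ^ 2 ≠ 1 → x ≤ ‖Lw χ (Wr r)‖ ∧
      ‖(Lw χ (Wr r))⁻¹ - Lw χ b‖ ≤ 2 * τ * ‖Lw χ b‖ := fun χ hχ => by
    have hχ1 : χ ≠ 1 := fun h => hχ (by rw [h, one_pow])
    have e1 := Lw_lower χ hχ hx
    have e2 := circ_close χ hχ1 hx h0 h1 hr
    have e3 := Lw_mul_mu χ hx
    set L := ‖Lw χ (Wt x)‖ with hL
    have hL0 : 0 ≤ L := norm_nonneg _
    have e4 : (p : ℝ)⁻¹ ≤ x := hxp.trans (by simpa using pow_le_pow_of_le_one hx.le hx1 (show 1 ≤ 4 by norm_num))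
    have e5 : ‖Lw χ (Wr r) - Lw χ (Wt x)‖ ≤ 9 * x * Real.log p ^ 2 := by
      have : 1 ≤ Real.log p ^ 2 := one_le_pow₀ hl
      have : 3 + 2 * Real.log p * (1 + 2 * Real.log p) ≤ 9 * Real.log p ^ 2 := by nlinarith
      nlinarith
    have e6 : x ^ 3 ≤ 24 * Real.log p * L ^ 4 := by
      have : (1 : ℝ) ≤ (2 * x⁻¹) ^ 3 * L ^ 4 * (3 * Real.log p) := e1.trans (by gcongr; linarith)
      have h2 := mul_le_mul_of_nonneg_left this (pow_nonneg hx.le 3)
      rw [mul_one, show x ^ 3 * ((2 * x⁻¹) ^ 3 * L ^ 4 * (3 * Real.log p)) =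
        24 * Real.log p * L ^ 4 by field_simp; ring] at h2
      exact h2
    have e7 : 9 * x * Real.log p ^ 2 ≤ τ * L := by
      refine le_of_pow_le_pow_left₀ (n := 4) (by norm_num) (by positivity) ?_
      calc (9 * x * Real.log p ^ 2) ^ 4 = 9 ^ 4 * x * Real.log p ^ 8 * x ^ 3 := by ring
        _ ≤ 9 ^ 4 * x * Real.log p ^ 8 * (24 * Real.log p * L ^ 4) := by gcongr
        _ = 9 ^ 4 * 24 * x * Real.log p ^ 9 * L ^ 4 := by ring
        _ ≤ τ ^ 4 * L ^ 4 := by gcongr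
        _ = (τ * L) ^ 4 := by ring
    have e8 : L / 2 ≤ ‖Lw χ (Wr r)‖ := by
      have := norm_sub_norm_le (Lw χ (Wt x)) (Lw χ (Wr r))
      rw [norm_sub_rev] at this
      nlinarith
    have e9 : x ≤ L / 2 := by
      have : 1 ≤ Real.log p ^ 2 := one_le_pow₀ hl
      nlinarith
    have hne : Lw χ (Wr r) ≠ 0 := norm_pos_iff.1 (by linarith)
    refine ⟨e9.trans e8, ?_⟩
    have e10 : (Lw χ (Wr r))⁻¹ - Lw χ b =
        -(Lw χ (Wr r) - Lw χ (Wt x)) * Lw χ b * (Lw χ (Wr r))⁻¹ := by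
      field_simp
      linear_combination e3.symm
    rw [e10, norm_mul, norm_mul, norm_neg, norm_inv, mul_inv_le_iff₀ (by linarith)]
    have := norm_nonneg (Lw χ b)
    calc ‖Lw χ (Wr r) - Lw χ (Wt x)‖ * ‖Lw χ b‖ ≤ τ * L * ‖Lw χ b‖ := by
          gcongr; exact e5.trans e7
      _ = 2 * τ * ‖Lw χ b‖ * (L / 2) := by ring
      _ ≤ _ := by gcongr
  refine ⟨b, by simp [hb, Wt_one], fun n => (hb1 n).trans (Wt_le hx n), fun χ h => (key χ h).1, ?_⟩
  have m0 := circ_meansq (p := p) hx b hb1 0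
  have mK := circ_meansq (p := p) hx b hb1 K
  simp only [zero_add, range_one, sum_singleton, Nat.cast_zero, MulChar.map_zero, zero_mul,
    sub_zero] at m0
  have hq : 2 * (1 + x⁻¹) ^ 2 / p ≤ 8 * τ ^ 2 := by
    calc 2 * (1 + x⁻¹) ^ 2 / p ≤ 2 * (2 * x⁻¹) ^ 2 * x ^ 4 := by
          rw [div_eq_mul_inv]; gcongr
      _ = 8 * x ^ 2 := by field_simp; ring
      _ ≤ _ := by gcongr
  have h2 : ∀ χ ∈ univ.filter fun χ : DirichletCharacter ℂ p => χ ^ 2 ≠ 1,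
      ‖(Lw χ (Wr r))⁻¹ - ∑ m ∈ range (K + 1), χ m * b m‖ ^ 2 ≤ 8 * τ ^ 2 * ‖Lw χ b‖ ^ 2 +
        2 * ‖Lw χ b - ∑ m ∈ range (K + 1), χ m * b m‖ ^ 2 := fun χ hχ => by
    have h3 := (norm_sub_le_norm_sub_add_norm_sub (Lw χ (Wr r))⁻¹ (Lw χ b)
      (∑ m ∈ range (K + 1), χ m * b m)).trans (add_le_add_left (key χ (mem_filter.1 hχ).2).2 _)
    refine (pow_le_pow_left₀ (norm_nonneg _) h3 2).trans ?_
    nlinarith [sq_nonneg (2 * τ * ‖Lw χ b‖ - ‖Lw χ b - ∑ m ∈ range (K + 1), χ m * b m‖)]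
  refine (sum_le_sum h2).trans ((sum_le_sum_of_subset_of_nonneg (filter_subset _ _)
    fun χ _ _ => by positivity).trans ?_)
  rw [sum_add_distrib, ← mul_sum, ← mul_sum]
  have hτ2 : τ ^ 2 ≤ 1 := pow_le_one₀ hτ0.le (by linarith)
  have h3 : (8 : ℝ) / (K + 1) = 2 * (4 / (K + 1)) := by ring
  have h4 : 0 ≤ (p : ℝ) - 1 := by linarith
  have m0' : ∑ χ : DirichletCharacter ℂ p, ‖Lw χ b‖ ^ 2 ≤ ((p : ℝ) - 1) * 12 :=
    m0.trans (mul_le_mul_of_nonneg_left (by linarith) h4)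
  have mK' := mK.trans (mul_le_mul_of_nonneg_left (add_le_add_right hq _) h4)
  have := mul_le_mul_of_nonneg_left m0' (show 0 ≤ 8 * τ ^ 2 by positivity)
  rw [h3]
  nlinarith

end Pool.Agent.MP_c1891a_nt.H91
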