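import Pool.Agent.MP_c1891a_nt.H91.CircC

/-
Integrality and pigeonhole steps for the spike argument.
-/

namespace Pool.Agent.MP_c1891a_nt.H91

open Finset

variable {p : ℕ} [Fact p.Prime]

theorem circ_psi_norm (z : ℤ) : ‖ψ p (z : ZMod p) - 1‖ = 2 * |Real.sin (Real.pi * z / p)| := by
  have h : E p z = Complex.exp (Complex.I * (2 * (Real.pi * z / p) : ℝ)) := by
    unfold E
    congr 1
    push_cast
    ring
  rw [ψ_int, h, Complex.norm_exp_I_mul_ofReal_sub_one, Real.norm_eq_abs, abs_mul, abs_two]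
  congr 3
  ring

theorem circ_psi_le (z : ℤ) : ‖ψ p (z : ZMod p) - 1‖ ≤ 8 * |(z : ℝ)| / p := by
  have hp : (0 : ℝ) < p := by exact_mod_cast (Fact.out : p.Prime).pos
  rw [circ_psi_norm]
  have h := Real.abs_sin_le_abs (x := Real.pi * z / p)
  rw [abs_div, abs_mul, abs_of_pos Real.pi_pos, abs_of_pos hp] at h
  have h2 : Real.pi * |(z : ℝ)| / p ≤ 4 * |(z : ℝ)| / p := by
    gcongr
    exact Real.pi_le_four
  have h3 : 8 * |(z : ℝ)| / p = 2 * (4 * |(z : ℝ)| / p) := by ring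
  linarith

theorem circ_psi_ge (z : ℤ) (hz : 2 * |(z : ℝ)| ≤ p) :
    4 * |(z : ℝ)| / p ≤ ‖ψ p (z : ZMod p) - 1‖ := by
  have hp : (0 : ℝ) < p := by exact_mod_cast (Fact.out : p.Prime).pos
  have hpi := Real.pi_pos
  have h0 : |Real.pi * z / p| = Real.pi * |(z : ℝ)| / p := by
    rw [abs_div, abs_mul, abs_of_pos Real.pi_pos, abs_of_pos hp]
  have h := Real.mul_abs_le_abs_sin (x := Real.pi * z / p) (by
    rw [h0, div_le_div_iff₀ hp two_pos]
    nlinarith)
  rw [circ_psi_norm]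
  rw [h0] at h
  have h3 : 4 * |(z : ℝ)| / p = 2 * (2 / Real.pi * (Real.pi * |(z : ℝ)| / p)) := by
    field_simp
    ring
  linarith

theorem circ_int (G A : ZMod p → ℂ) (h : ZMod p)
    (hG : ∀ y, ∃ m : ℤ, ∑ β, ψ p (-(y * β)) * G β = p * m)
    (hA : ∑ β, ‖ψ p (h * β) - 1‖ * ‖A β‖ ≤ p / 2) :
    ∑ β, ‖(ψ p (h * β) - 1) * A β‖ ^ 2 ≤ 4 * ∑ β, ‖G β - A β‖ ^ 2 := by
  have hp : (0 : ℝ) < p := by exact_mod_cast (Fact.out : p.Prime).pos
  have key : ∀ y, ‖∑ β, ψ p (-(y * β)) * ((ψ p (h * β) - 1) * A β)‖ ≤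
      ‖∑ β, ψ p (-(y * β)) * ((ψ p (h * β) - 1) * (G β - A β))‖ := fun y => by
    obtain ⟨m, hm⟩ := hG y
    obtain ⟨m', hm'⟩ := hG (y - h)
    have h1 : ∑ β, ψ p (-(y * β)) * ((ψ p (h * β) - 1) * (G β - A β)) =
        p * ((m' - m : ℤ) : ℂ) - ∑ β, ψ p (-(y * β)) * ((ψ p (h * β) - 1) * A β) := by
      push_cast
      rw [mul_sub, ← hm, ← hm', ← sum_sub_distrib, ← sum_sub_distrib]
      refine sum_congr rfl fun β _ => ?_
      rw [show -((y - h) * β) = -(y * β) + h * β by ring, AddChar.map_add_eq_mul]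
      ring
    have h2 : ‖∑ β, ψ p (-(y * β)) * ((ψ p (h * β) - 1) * A β)‖ ≤ p / 2 :=
      (norm_sum_le _ _).trans (le_trans (le_of_eq (sum_congr rfl fun β _ => by
        rw [norm_mul, norm_mul, ψ_norm, one_mul])) hA)
    rw [h1]
    rcases eq_or_ne (m' - m) 0 with h3 | h3
    · simp [h3]
    · have h4 : (1 : ℝ) ≤ ‖((m' - m : ℤ) : ℂ)‖ := by
        rw [Complex.norm_intCast]
        exact_mod_cast Int.one_le_abs h3
      have h5 := norm_sub_norm_le ((p : ℂ) * ((m' - m : ℤ) : ℂ))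
        (∑ β, ψ p (-(y * β)) * ((ψ p (h * β) - 1) * A β))
      rw [norm_mul, Complex.norm_natCast] at h5
      nlinarith
  have h1 := sum_le_sum fun y (_ : y ∈ univ) => pow_le_pow_left₀ (norm_nonneg _) (key y) 2
  rw [ψ_pars, ψ_pars] at h1
  refine (le_of_mul_le_mul_left h1 hp).trans ?_
  rw [mul_sum]
  refine sum_le_sum fun β _ => ?_
  have h2 : ‖ψ p (h * β) - 1‖ ≤ 2 := (norm_sub_le _ _).trans (by rw [ψ_norm, norm_one]; norm_num)
  rw [norm_mul, mul_pow]
  refine mul_le_mul_of_nonneg_right ?_ (sq_nonneg _)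
  nlinarith [norm_nonneg (ψ p (h * β) - 1)]

theorem circ_pigeon (S : Finset (ZMod p)) (hS : S.Nonempty) (h0 : (0 : ZMod p) ∉ S) (Q : ℕ)
    (hQ : 0 < Q) (hc : Q ^ S.card < p) {R : ℝ} (hR : (p : ℝ) ≤ R * Q) :
    ∃ (u : ZMod p) (τ : ZMod p → ℤ), (∀ j ∈ S, (τ j : ZMod p) = u * j ∧ |(τ j : ℝ)| ≤ 2 * R) ∧
      ∃ j ∈ S, R ≤ |(τ j : ℝ)| ∧ ∀ i ∈ S, |τ i| ≤ |τ j| := by
  have hp := (Fact.out : p.Prime).pos
  have hp' : (0 : ℝ) < p := by exact_mod_cast hp
  obtain ⟨h, h', hne, he⟩ := Fintype.exists_ne_map_eq_of_card_lt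
    (fun (h : ZMod p) (j : S) => (⟨(h * j).val * Q / p, by
      rw [Nat.div_lt_iff_lt_mul hp, mul_comm Q]
      exact Nat.mul_lt_mul_of_pos_right (ZMod.val_lt _) hQ⟩ : Fin Q))
    (by simpa using hc)
  set τ : ZMod p → ℤ := fun j => ((h * j).val : ℤ) - (h' * j).val with hτ
  have h1 : ∀ j, (τ j : ZMod p) = (h - h') * j := fun j => by
    simp only [hτ]
    push_cast
    simp only [ZMod.natCast_val, ZMod.cast_id', id]
    ring
  have h2 : ∀ j ∈ S, |(τ j : ℝ)| ≤ R := fun j hj => by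
    have h3 : (h * j).val * Q / p = (h' * j).val * Q / p :=
      congrArg Fin.val (congrFun he ⟨j, hj⟩)
    have h4 := Nat.div_add_mod ((h * j).val * Q) p
    have h5 := Nat.div_add_mod ((h' * j).val * Q) p
    have h6 := Nat.mod_lt ((h * j).val * Q) hp
    have h7 := Nat.mod_lt ((h' * j).val * Q) hp
    rw [h3] at h4
    have h8 : |τ j * Q| ≤ p := by
      simp only [hτ]
      rw [sub_mul, abs_le]
      constructor <;> omega
    have h9 : |(τ j : ℝ)| * Q ≤ p := by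
      have : ((|τ j * Q| : ℤ) : ℝ) ≤ p := by exact_mod_cast h8
      simpa [abs_mul] using this
    exact le_of_mul_le_mul_right (h9.trans hR) (by exact_mod_cast hQ)
  obtain ⟨j, hj, hmax⟩ := exists_max_image S (fun j => |τ j|) hS
  have h3 : τ j ≠ 0 := fun h4 => by
    have := h1 j
    rw [h4, Int.cast_zero, eq_comm, mul_eq_zero, sub_eq_zero] at this
    exact this.elim hne fun h5 => h0 (h5 ▸ hj)
  have h4 : (0 : ℝ) < |(τ j : ℝ)| := abs_pos.2 (by exact_mod_cast h3)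
  have hR0 : 0 < R := h4.trans_le (h2 j hj)
  set t : ℕ := ⌈R / |(τ j : ℝ)|⌉₊ with ht
  have h5 : R ≤ t * |(τ j : ℝ)| := (div_le_iff₀ h4).1 (Nat.le_ceil _)
  have h6 : t * |(τ j : ℝ)| ≤ 2 * R := by
    have h7 := (Nat.ceil_lt_add_one (div_pos hR0 h4).le).le
    have h8 := mul_le_mul_of_nonneg_right h7 h4.le
    rw [add_mul, div_mul_cancel₀ _ h4.ne', one_mul] at h8
    linarith [h2 j hj]
  refine ⟨t * (h - h'), fun j => t * τ j, fun i hi => ⟨?_, ?_⟩, j, hj, ?_, fun i hi => ?_⟩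
  · push_cast
    rw [h1, mul_assoc]
  · have : |(τ i : ℝ)| ≤ |(τ j : ℝ)| := by exact_mod_cast hmax i hi
    push_cast
    rw [abs_mul, Nat.abs_cast]
    exact (mul_le_mul_of_nonneg_left this (Nat.cast_nonneg t)).trans h6
  · push_cast
    rwa [abs_mul, Nat.abs_cast]
  · rw [abs_mul, abs_mul]
    exact mul_le_mul_of_nonneg_left (hmax i hi) (abs_nonneg _)

theorem circ_spike (G : ZMod p → ℂ) (hG0 : G 0 = 0) (hne : ∃ j, G j ≠ 0) {H η : ℝ} (hH : 1 ≤ H)
    (hG1 : ∑ j, ‖G j‖ ≤ 4 * H * p) (hG2 : ∀ j, G j ≠ 0 → 2 * η * p ≤ ‖G j‖) (K M : ℕ)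
    (hK : 1 ≤ K) (hM : 2 * H ≤ η * M) (Q : ℕ) (hQ : 256 * H * K.factorial ≤ Q) (hc : Q ^ M < p)
    (hKp : K < p) (a : ℕ → ℝ) (ha1 : a 1 = 1) (ha : ∀ n, |a n| ≤ (n : ℝ)⁻¹) :
    ∃ h j : ZMod p, ∑ β, ‖ψ p (h * β) - 1‖ * ‖∑ m ∈ range (K + 1), a m * G (m * β)‖ ≤ p / 2 ∧
      η * p / (32 * H) ≤ ‖(ψ p (h * j) - 1) * ∑ m ∈ range (K + 1), a m * G (m * j)‖ := by
  classical
  have hp := (Fact.out : p.Prime).pos
  have hp' : (0 : ℝ) < p := by exact_mod_cast hp
  have hη : 0 < η := by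
    by_contra h
    nlinarith [mul_nonneg (neg_nonneg.2 (not_lt.1 h)) (Nat.cast_nonneg (α := ℝ) M)]
  have hL : (0 : ℝ) < K.factorial := by exact_mod_cast K.factorial_pos
  have hQ0 : 0 < Q := by
    have : (0 : ℝ) < Q := lt_of_lt_of_le (by positivity) hQ
    exact_mod_cast this
  set S := univ.filter fun j => G j ≠ 0 with hS
  have hSm : ∀ j, j ∈ S ↔ G j ≠ 0 := fun j => by simp [hS]
  have hcard : S.card ≤ M := by
    have h1 := card_nsmul_le_sum S (fun j => ‖G j‖) _ fun j hj => hG2 j ((hSm j).1 hj)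
    have h2 := (h1.trans (sum_le_sum_of_subset_of_nonneg (subset_univ _)
      fun j _ _ => norm_nonneg (G j))).trans hG1
    rw [nsmul_eq_mul] at h2
    have h3 : (S.card : ℝ) * (2 * η * p) ≤ M * (2 * η * p) := by nlinarith
    exact_mod_cast le_of_mul_le_mul_right h3 (by positivity)
  set R : ℝ := p / (256 * H * K.factorial) with hR
  have hRL : R * K.factorial = p / (256 * H) := by rw [hR]; field_simp
  obtain ⟨u, τ, h1, j, hj, h2, h3⟩ := circ_pigeon S (hne.imp fun j => (hSm j).2)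
    (fun h => (hSm 0).1 h hG0) Q hQ0 ((Nat.pow_le_pow_right hQ0 hcard).trans_lt hc) (R := R) (by
      rw [hR, div_mul_eq_mul_div, le_div_iff₀ (by positivity)]
      gcongr)
  refine ⟨K.factorial * u, j, ?_, ?_⟩
  · have e1 : ∀ m ∈ Ioo 0 (K + 1), ∑ β, ‖ψ p (K.factorial * u * β) - 1‖ * ‖a m * G (m * β)‖ ≤
        p / 4 * ((m : ℝ) ^ 2)⁻¹ := fun m hm => by
      rw [mem_Ioo] at hm
      have hm0 : (0 : ℝ) < m := by exact_mod_cast hm.1
      obtain ⟨q, hq⟩ := Nat.dvd_factorial hm.1 (Nat.le_of_lt_succ hm.2)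
      have hm1 : (m : ZMod p) ≠ 0 := by
        rw [Ne, ZMod.natCast_eq_zero_iff]
        exact Nat.not_dvd_of_pos_of_lt hm.1 (by omega)
      have e2 : ∀ β : ZMod p, ‖ψ p (K.factorial * u * β) - 1‖ * ‖a m * G (m * β)‖ ≤
          (16 * H)⁻¹ * ((m : ℝ) ^ 2)⁻¹ * ‖G (m * β)‖ := fun β => by
        by_cases hβ : G (m * β) = 0
        · simp [hβ]
        obtain ⟨e3, e4⟩ := h1 _ ((hSm _).2 hβ)
        have e5 : (K.factorial : ZMod p) * u * β = ((q * τ (m * β) : ℤ) : ZMod p) := by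
          rw [hq]
          push_cast
          rw [e3]
          ring
        have e6 := circ_psi_le (p := p) (q * τ (m * β))
        have e7 : 8 * |((q * τ (m * β) : ℤ) : ℝ)| / p ≤ (16 * H)⁻¹ * (m : ℝ)⁻¹ := by
          push_cast
          rw [abs_mul, Nat.abs_cast]
          calc 8 * (q * |(τ (m * β) : ℝ)|) / p ≤ 8 * (q * (2 * R)) / p := by gcongr
            _ = 16 * (R * K.factorial) / p * (m : ℝ)⁻¹ := by
              rw [hq]
              push_cast
              field_simp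
              ring
            _ = _ := by
              rw [hRL]
              field_simp
              ring
        rw [e5, norm_mul, Complex.norm_real, Real.norm_eq_abs, ← mul_assoc]
        refine mul_le_mul_of_nonneg_right ?_ (norm_nonneg _)
        rw [sq, mul_inv (m : ℝ), ← mul_assoc]
        exact mul_le_mul (e6.trans e7) (ha m) (abs_nonneg _) (by positivity)
      refine (sum_le_sum fun β _ => e2 β).trans ?_
      have e3 : ∑ β, ‖G (m * β)‖ = ∑ β, ‖G β‖ :=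
        Equiv.sum_comp (Equiv.mulLeft₀ (m : ZMod p) hm1) fun β => ‖G β‖
      rw [← mul_sum, e3]
      calc (16 * H)⁻¹ * ((m : ℝ) ^ 2)⁻¹ * ∑ β, ‖G β‖
          ≤ (16 * H)⁻¹ * ((m : ℝ) ^ 2)⁻¹ * (4 * H * p) := by gcongr
        _ = _ := by field_simp; ring
    have e2 : ∀ β : ZMod p, ‖∑ m ∈ range (K + 1), a m * G (m * β)‖ ≤
        ∑ m ∈ Ioo 0 (K + 1), ‖a m * G (m * β)‖ := fun β => by
      refine le_trans (le_of_eq ?_) (norm_sum_le _ _)
      rw [sum_subset (s₁ := Ioo 0 (K + 1)) (s₂ := range (K + 1))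
        (fun m hm => mem_range.2 (mem_Ioo.1 hm).2) fun m hm hm' => ?_]
      have : m = 0 := by
        simp only [mem_range, mem_Ioo] at hm hm'
        omega
      simp [this, hG0]
    refine (sum_le_sum fun β _ => mul_le_mul_of_nonneg_left (e2 β) (norm_nonneg _)).trans ?_
    simp only [mul_sum]
    rw [sum_comm]
    refine (sum_le_sum e1).trans ?_
    have := sum_Ioo_inv_sq_le (α := ℝ) 0 (K + 1)
    rw [← mul_sum]
    simp only [Nat.cast_zero, zero_add, div_one] at this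
    nlinarith
  · have hR0 : 0 < R := by positivity
    have e1 : ∑ m ∈ range (K + 1), a m * G (m * j) = G j := by
      rw [sum_eq_single_of_mem 1 (mem_range.2 (by omega)) fun m hm hm1 => ?_]
      · simp [ha1]
      rcases m.eq_zero_or_pos with rfl | hm0
      · simp [hG0]
      by_contra hc'
      have e2 : (m : ZMod p) * j ∈ S := (hSm _).2 fun h => hc' (by rw [h, mul_zero])
      have e3 : (p : ℤ) ∣ τ (m * j) - m * τ j := by
        rw [← ZMod.intCast_zmod_eq_zero_iff_dvd]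
        push_cast
        rw [(h1 _ e2).1, (h1 _ hj).1]
        ring
      have e4 : (m : ℝ) ≤ K.factorial := by
        exact_mod_cast (Nat.le_of_lt_succ (mem_range.1 hm)).trans K.self_le_factorial
      have e5 : |τ (m * j) - m * τ j| < p := by
        have e6 : |(τ (m * j) : ℝ) - m * τ j| ≤ 2 * R + m * (2 * R) := by
          refine (abs_sub _ _).trans (add_le_add (h1 _ e2).2 ?_)
          rw [abs_mul, Nat.abs_cast]
          exact mul_le_mul_of_nonneg_left (h1 _ hj).2 (Nat.cast_nonneg m)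
        have e7 : (1 : ℝ) ≤ K.factorial := by exact_mod_cast K.factorial_pos
        have e8 : p / (256 * H) ≤ p / 256 := by gcongr; linarith
        have e9 : |(τ (m * j) : ℝ) - m * τ j| < p := by nlinarith
        exact_mod_cast e9
      have e6 := h3 _ e2
      rw [sub_eq_zero.1 (Int.eq_zero_of_abs_lt_dvd e3 e5), abs_mul, Nat.abs_cast] at e6
      have e7 : 0 < |τ j| := by exact_mod_cast hR0.trans_le h2
      have e8 : (2 : ℤ) ≤ m := by omega
      nlinarith
    have e2 : (K.factorial : ZMod p) * u * j = ((K.factorial * τ j : ℤ) : ZMod p) := by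
      push_cast
      rw [(h1 _ hj).1, mul_assoc]
    have e3 : |((K.factorial * τ j : ℤ) : ℝ)| = K.factorial * |(τ j : ℝ)| := by
      push_cast
      rw [abs_mul, Nat.abs_cast]
    have e4 := circ_psi_ge (p := p) (K.factorial * τ j) (by
      have e8 : p / (256 * H) ≤ p / 256 := by gcongr; linarith
      have := mul_le_mul_of_nonneg_left (h1 _ hj).2 hL.le
      rw [e3]
      nlinarith)
    have e5 : (64 * H)⁻¹ ≤ 4 * |((K.factorial * τ j : ℤ) : ℝ)| / p := by
      rw [e3]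
      calc (64 * H)⁻¹ = 4 * (R * K.factorial) / p := by rw [hRL]; field_simp; ring
        _ ≤ _ := by rw [mul_comm R]; gcongr
    rw [e1, e2, norm_mul]
    calc η * p / (32 * H) = (64 * H)⁻¹ * (2 * η * p) := by field_simp; ring
      _ ≤ _ := mul_le_mul (e5.trans e4) (hG2 j ((hSm j).1 hj)) (by positivity) (norm_nonneg _)

end Pool.Agent.MP_c1891a_nt.H91
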