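import Pool.Agent.MP_c1891a_nt.H91.CircD

/-
A circular number of bounded height has no isolated large spikes.
-/

namespace Pool.Agent.MP_c1891a_nt.H91

open Finset Filter Topology ComplexConjugate

variable {p : ℕ} [Fact p.Prime]

/-- the smoothed logarithmic embedding. -/
noncomputable def fr (c : ZMod p → ℤ) (r : ℝ) (j : ZMod p) : ℝ :=
  ∑ k, c k * Real.log ‖1 - r * ψ p (k * j)‖

/-- the symmetrized additive Fourier transform. -/
noncomputable def Cs (c : ZMod p → ℤ) (β : ZMod p) : ℂ :=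
  ∑ k, c k * (ψ p (k * β) + ψ p (-(k * β)))

theorem circ_hasSum (c : ZMod p → ℤ) {r : ℝ} (h0 : 0 ≤ r) (h1 : r < 1) (j : ZMod p) :
    HasSum (fun n : ℕ => (Wr r n : ℂ) * Cs c (n * j)) (-(2 * fr c r j : ℝ)) := by
  have key : ∀ m : ZMod p, HasSum (fun n : ℕ => (Wr r n : ℂ) * (ψ p (n * m) + ψ p (-(n * m))))
      (-(2 * Real.log ‖1 - r * ψ p m‖ : ℝ)) := fun m => by
    have h2 := Complex.hasSum_taylorSeries_neg_log (z := r * ψ p m) (by
      rw [norm_mul, ψ_norm, Complex.norm_real, Real.norm_of_nonneg h0]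
      linarith)
    have h3 := h2.add (Complex.hasSum_conj'.2 h2)
    rw [Complex.add_conj, Complex.neg_re, Complex.log_re, mul_neg, Complex.ofReal_neg] at h3
    refine h3.congr_fun fun n => ?_
    rw [← ψ_conj, ← nsmul_eq_mul, AddChar.map_nsmul_eq_pow, Wr]
    simp only [map_div₀, map_pow, map_mul, Complex.conj_ofReal, Complex.conj_natCast]
    push_cast
    ring
  have h2 := hasSum_sum fun k (_ : k ∈ univ) => (key (k * j)).mul_left (c k : ℂ)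
  have h3 : (-(2 * fr c r j : ℝ) : ℂ) =
      ∑ k, (c k : ℂ) * -(2 * Real.log ‖1 - r * ψ p (k * j)‖ : ℝ) := by
    unfold fr
    push_cast
    rw [mul_sum, ← sum_neg_distrib]
    exact sum_congr rfl fun k _ => by ring
  rw [h3]
  refine h2.congr_fun fun n => ?_
  unfold Cs
  rw [mul_sum]
  refine sum_congr rfl fun k _ => ?_
  rw [mul_left_comm k]
  ring

theorem circ_mh (c : ZMod p → ℤ) {r : ℝ} (h0 : 0 ≤ r) (h1 : r < 1)
    (χ : DirichletCharacter ℂ p) :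
    Lw χ⁻¹ (Wr r) * mh (fun β => Cs c β - Cs c (4 * β)) χ =
      -mh (fun j => ((2 * (fr c r j - fr c r (4 * j)) : ℝ) : ℂ)) χ := by
  have h2 := hasSum_sum fun j (_ : j ∈ univ) =>
    ((circ_hasSum c h0 h1 j).sub (circ_hasSum c h0 h1 (4 * j))).mul_left (χ j)
  have h3 := (circ_summable χ⁻¹ (Wr_summable h0 h1)).hasSum.mul_right
    (mh (fun β => Cs c β - Cs c (4 * β)) χ)
  refine h3.unique ?_
  convert h2 using 1
  · ext n
    rw [mul_right_comm, ← mh_dil _ (by simp), mh, sum_mul]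
    refine sum_congr rfl fun j _ => ?_
    rw [mul_left_comm (n : ZMod p)]
    ring
  · rw [mh, ← sum_neg_distrib]
    refine sum_congr rfl fun j _ => ?_
    push_cast
    ring

theorem circ_four (hp : p ≠ 2) : (4 : ZMod p) ≠ 0 := by
  have h2 : (2 : ZMod p) ≠ 0 := fun h => hp
    ((Nat.prime_dvd_prime_iff_eq Fact.out Nat.prime_two).1 ((ZMod.natCast_eq_zero_iff 2 p).1 h))
  rw [show (4 : ZMod p) = 2 * 2 by norm_num]
  exact mul_ne_zero h2 h2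

theorem mh_four (hp : p ≠ 2) (g : ZMod p → ℂ) (χ : DirichletCharacter ℂ p) (hχ : χ ^ 2 = 1) :
    mh (fun x => g x - g (4 * x)) χ = 0 := by
  have h4 := circ_four hp
  have h2 : (2 : ZMod p) ≠ 0 := fun h => h4 (by rw [show (4 : ZMod p) = 2 * 2 by norm_num, h,
    mul_zero])
  have h1 : χ 4 = 1 := by
    rw [show (4 : ZMod p) = 2 * 2 by norm_num, map_mul, ← MulChar.mul_apply, ← sq, hχ,
      MulChar.one_apply h2.isUnit]
  rw [mh_sub, sub_eq_zero, mh, mh, ← Equiv.sum_comp (Equiv.mulLeft₀ 4 h4)]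
  simp only [Equiv.mulLeft₀_apply, map_mul, h1, one_mul]

theorem circ_Cs_int (hp : p ≠ 2) (c : ZMod p → ℤ) (y : ZMod p) :
    ∃ m : ℤ, ∑ β, ψ p (-(y * β)) * (Cs c β - Cs c (4 * β)) = p * m := by
  have key : ∀ u : ZMod p, u ≠ 0 →
      ∑ β, ψ p (-(y * β)) * ∑ k, c k * ψ p (k * (u * β)) = p * c (u⁻¹ * y) := fun u hu => by
    rw [← ψ_inv (fun k => (c (u⁻¹ * k) : ℂ)) y]
    refine sum_congr rfl fun β _ => ?_
    rw [← Equiv.sum_comp (Equiv.mulLeft₀ u hu) fun k => (c (u⁻¹ * k) : ℂ) * ψ p (k * β)]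
    simp only [Equiv.mulLeft₀_apply, inv_mul_cancel_left₀ hu, mul_left_comm _ u, mul_assoc]
  have h4 := circ_four hp
  refine ⟨c (1⁻¹ * y) + c ((-1)⁻¹ * y) - (c (4⁻¹ * y) + c ((-4)⁻¹ * y)), ?_⟩
  push_cast
  rw [mul_sub, mul_add, mul_add, ← key 1 one_ne_zero, ← key (-1) (by simp), ← key 4 h4,
    ← key (-4) (neg_ne_zero.2 h4), ← sum_add_distrib, ← sum_add_distrib, ← sum_sub_distrib]
  refine sum_congr rfl fun β _ => ?_
  simp only [Cs, mul_add, sum_add_distrib, one_mul, neg_mul, mul_neg, mul_sub]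

theorem circ_approx (C F G : ZMod p → ℂ) (hC : C 0 = 0) (hF : F 0 = 0) (hG : G 0 = 0)
    (L : DirichletCharacter ℂ p → ℂ) (h1 : ∀ χ, χ ^ 2 = 1 → mh C χ = 0 ∧ mh G χ = 0)
    (h2 : ∀ χ, L χ⁻¹ * mh C χ = -(mh F χ + mh G χ)) {x ε : ℝ} (hx : 0 < x)
    (h3 : ∀ χ, χ ^ 2 ≠ 1 → x ≤ ‖L χ‖) (I : Finset ℕ) (a : ℕ → ℝ)
    (h4 : ∑ χ : DirichletCharacter ℂ p with χ ^ 2 ≠ 1,
      ‖(L χ)⁻¹ - ∑ m ∈ I, χ m * a m‖ ^ 2 ≤ ((p : ℝ) - 1) * ε) :
    ∑ β, ‖C β + ∑ m ∈ I, a m * G (m * β)‖ ^ 2 ≤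
      2 * (x ^ 2)⁻¹ * ∑ β, ‖F β‖ ^ 2 + 2 * (∑ β, ‖G β‖) ^ 2 * ε := by
  classical
  have hp : (0 : ℝ) < (p : ℝ) - 1 := by
    have : (2 : ℝ) ≤ p := by exact_mod_cast (Fact.out : p.Prime).two_le
    linarith
  have e1 : ∀ χ : DirichletCharacter ℂ p,
      ‖mh (fun β => C β + ∑ m ∈ I, a m * G (m * β)) χ‖ ^ 2 ≤ 2 * (x ^ 2)⁻¹ * ‖mh F χ‖ ^ 2 +
        2 * (∑ β, ‖G β‖) ^ 2 *
          if χ⁻¹ ^ 2 ≠ 1 then ‖(L χ⁻¹)⁻¹ - ∑ m ∈ I, χ⁻¹ m * a m‖ ^ 2 else 0 := fun χ => by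
    have e2 : mh (fun β => C β + ∑ m ∈ I, a m * G (m * β)) χ =
        mh C χ + (∑ m ∈ I, χ⁻¹ m * a m) * mh G χ := by
      rw [← mh_sum I (fun m => (a m : ℂ)) G hG χ]
      simp only [mh, mul_add, sum_add_distrib]
    rw [e2]
    split_ifs with h
    · have e3 := h3 _ h
      have e4 : L χ⁻¹ ≠ 0 := norm_pos_iff.1 (hx.trans_le e3)
      have e5 : mh C χ + (∑ m ∈ I, χ⁻¹ m * a m) * mh G χ =
          -((L χ⁻¹)⁻¹ * mh F χ + mh G χ * ((L χ⁻¹)⁻¹ - ∑ m ∈ I, χ⁻¹ m * a m)) := by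
        have := h2 χ
        field_simp
        linear_combination this
      have e6 : ‖(L χ⁻¹)⁻¹ * mh F χ‖ ≤ x⁻¹ * ‖mh F χ‖ := by
        rw [norm_mul, norm_inv]
        gcongr
      have e7 : ‖mh G χ * ((L χ⁻¹)⁻¹ - ∑ m ∈ I, χ⁻¹ m * a m)‖ ≤
          (∑ β, ‖G β‖) * ‖(L χ⁻¹)⁻¹ - ∑ m ∈ I, χ⁻¹ m * a m‖ := by
        rw [norm_mul]
        exact mul_le_mul_of_nonneg_right (mh_norm_le G χ) (norm_nonneg _)
      rw [e5, norm_neg, ← inv_pow]
      refine (pow_le_pow_left₀ (norm_nonneg _)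
        ((norm_add_le _ _).trans (add_le_add e6 e7)) 2).trans ?_
      nlinarith [sq_nonneg (x⁻¹ * ‖mh F χ‖ -
        (∑ β, ‖G β‖) * ‖(L χ⁻¹)⁻¹ - ∑ m ∈ I, χ⁻¹ m * a m‖)]
    · rw [not_ne_iff, inv_pow, inv_eq_one] at h
      rw [(h1 χ h).1, (h1 χ h).2]
      simp only [mul_zero, add_zero, norm_zero, ne_eq, OfNat.ofNat_ne_zero, not_false_eq_true,
        zero_pow]
      positivity
  have e2 := sum_le_sum fun χ (_ : χ ∈ univ) => e1 χ
  have e3 : ∑ χ : DirichletCharacter ℂ p,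
      (if χ⁻¹ ^ 2 ≠ 1 then ‖(L χ⁻¹)⁻¹ - ∑ m ∈ I, χ⁻¹ m * a m‖ ^ 2 else 0) =
      ∑ χ : DirichletCharacter ℂ p,
      if χ ^ 2 ≠ 1 then ‖(L χ)⁻¹ - ∑ m ∈ I, χ m * a m‖ ^ 2 else 0 :=
    Equiv.sum_comp (Equiv.inv _) fun χ : DirichletCharacter ℂ p =>
      if χ ^ 2 ≠ 1 then ‖(L χ)⁻¹ - ∑ m ∈ I, χ m * a m‖ ^ 2 else 0
  rw [mh_pars _ (by simp [hC, hG]), sum_add_distrib, ← mul_sum, ← mul_sum, mh_pars F hF, e3,
    ← sum_filter] at e2
  refine le_of_mul_le_mul_left (e2.trans ?_) hp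
  have := mul_le_mul_of_nonneg_left h4 (show 0 ≤ 2 * (∑ β, ‖G β‖) ^ 2 by positivity)
  nlinarith

theorem circ_smooth (c : ZMod p → ℤ) (hc : c 0 = 0) :
    ∃ r : ℝ, 0 ≤ r ∧ r < 1 ∧ 1 - r ≤ ((p : ℝ) ^ 3)⁻¹ ∧
      ∀ j, j ≠ 0 → |fr c r j - fr c 1 j| ≤ 1 := by
  have hp : (0 : ℝ) < p := by exact_mod_cast (Fact.out : p.Prime).pos
  have h1 : ∀ j, j ≠ 0 → ContinuousAt (fun r => fr c r j) 1 := fun j hj => by
    unfold fr
    refine tendsto_finsetSum _ fun k _ => ?_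
    rcases eq_or_ne k 0 with rfl | hk
    · simp [hc]
    · refine Tendsto.const_mul _ (ContinuousAt.log (by fun_prop) ?_)
      rw [Complex.ofReal_one, one_mul, norm_ne_zero_iff, sub_ne_zero]
      exact fun h => mul_ne_zero hk hj
        ((ZMod.isPrimitive_stdAddChar p).zmod_char_eq_one_iff p _ |>.1 h.symm)
  have h2 : ∀ᶠ r in 𝓝 (1 : ℝ), ∀ j, j ≠ 0 → |fr c r j - fr c 1 j| ≤ 1 :=
    eventually_all.2 fun j => by
      by_cases hj : j = 0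
      · simp [hj]
      · filter_upwards [Metric.tendsto_nhds.1 (h1 j hj) 1 one_pos] with r hr _
        exact hr.le
  have h3 : ∀ᶠ r in 𝓝 (1 : ℝ), 0 ≤ r := (lt_mem_nhds one_pos).mono fun _ h => h.le
  have h4 : ∀ᶠ r in 𝓝 (1 : ℝ), 1 - ((p : ℝ) ^ 3)⁻¹ < r :=
    lt_mem_nhds (by have : 0 < ((p : ℝ) ^ 3)⁻¹ := by positivity
                    linarith)
  obtain ⟨r, hr, hr1⟩ := (((h2.and (h3.and h4)).filter_mono nhdsWithin_le_nhds).and
    (self_mem_nhdsWithin (a := (1 : ℝ)) (s := Set.Iio 1))).exists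
  exact ⟨r, hr.2.1, hr1, by linarith [hr.2.2], hr.1⟩

theorem circ_core (c : ZMod p → ℤ) (hc : c 0 = 0) {H η P x τ : ℝ} (hH : 1 ≤ H)
    (h1 : ∑ j, |fr c 1 j| ≤ H * p)
    (h2 : ∀ j, P < |fr c 1 j| → η * p ≤ |fr c 1 j| ∧ |fr c 1 (4 * j)| ≤ P)
    (hP : P ≤ x ^ 4 * p) (hP0 : 0 ≤ P) (K M Q : ℕ) (hK : 1 ≤ K) (hM : 2 * H ≤ η * M)
    (hQ : 256 * H * K.factorial ≤ Q) (hQM : Q ^ M < p) (hKp : K < p) (hx : 0 < x)
    (hxp : (p : ℝ)⁻¹ ≤ x ^ 4) (hp3 : 3 ≤ p) (hτ0 : 0 < τ) (hτ : τ ≤ 1 / 2)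
    (hsm : 9 ^ 4 * 24 * x * Real.log p ^ 9 ≤ τ ^ 4)
    (hfin : 4 * (128 * H * x ^ 2 + 32 * H ^ 2 * (8 / (K + 1) + 112 * τ ^ 2)) <
      (η / (32 * H)) ^ 2) (j : ZMod p) : |fr c 1 j| ≤ P := by
  classical
  by_contra hj
  have hp : (0 : ℝ) < p := by positivity
  have hp2 : p ≠ 2 := by omega
  have h4 := circ_four hp2
  have hη : 0 < η := by
    by_contra h
    nlinarith [mul_nonneg (neg_nonneg.2 (not_lt.1 h)) (Nat.cast_nonneg (α := ℝ) M)]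
  obtain ⟨r, hr0, hr1, hr, hrf⟩ := circ_smooth c hc
  obtain ⟨a, ha1, ha, hL, hLs⟩ := circ_Lest (p := p) K hx hxp hp3 hτ0 hτ hsm hr0 hr1 hr
  set g : ZMod p → ℝ := fun j => if P < |fr c 1 j| then fr c 1 j else 0 with hg
  set G : ZMod p → ℂ := fun j => ((2 * (g j - g (4 * j)) : ℝ) : ℂ) with hG
  set F : ZMod p → ℂ := fun j => ((2 * (fr c r j - fr c r (4 * j)) : ℝ) : ℂ) - G j with hF
  have hGn : ∀ j, ‖G j‖ = 2 * |g j - g (4 * j)| := fun j => by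
    simp only [hG]
    rw [Complex.norm_real, Real.norm_eq_abs, abs_mul, abs_two]
  have hdil : ∀ u : ZMod p → ℝ, ∑ j, u (4 * j) = ∑ j, u j := fun u =>
    Equiv.sum_comp (Equiv.mulLeft₀ 4 h4) u
  have hg1 : ∀ j, |g j| ≤ |fr c 1 j| := fun j => by
    simp only [hg]
    split_ifs <;> simp
  have hG1 : ∑ j, ‖G j‖ ≤ 4 * H * p := by
    have e1 : ∀ j ∈ univ, ‖G j‖ ≤ 2 * (|fr c 1 j| + |fr c 1 (4 * j)|) := fun j _ => by
      have := abs_sub (g j) (g (4 * j))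
      rw [hGn]
      linarith [hg1 j, hg1 (4 * j)]
    refine (sum_le_sum e1).trans ?_
    rw [← mul_sum, sum_add_distrib, hdil fun j => |fr c 1 j|]
    linarith
  have hG3 : ∀ j, P < |fr c 1 j| → 2 * η * p ≤ ‖G j‖ := fun j h => by
    rw [hGn]
    simp only [hg]
    rw [if_pos h, if_neg (not_lt.2 (h2 j h).2), sub_zero]
    linarith [(h2 j h).1]
  have hG2 : ∀ j, G j ≠ 0 → 2 * η * p ≤ ‖G j‖ := fun j h => by
    by_cases e1 : P < |fr c 1 j|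
    · exact hG3 j e1
    · by_cases e2 : P < |fr c 1 (4 * j)|
      · rw [hGn]
        simp only [hg]
        rw [if_neg e1, if_pos e2, zero_sub, abs_neg]
        linarith [(h2 _ e2).1]
      · exact absurd (by simp [hG, hg, e1, e2]) h
  have hG0 : G 0 = 0 := by simp [hG]
  obtain ⟨h, i, s1, s2⟩ := circ_spike G hG0 ⟨j, norm_pos_iff.1
    (lt_of_lt_of_le (by positivity) (hG3 j (not_le.1 hj)))⟩ hH hG1 hG2 K M hK hM Q hQ hQM hKp
    a ha1 ha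
  have s3 := circ_int (fun β => Cs c β - Cs c (4 * β))
    (fun β => -∑ m ∈ range (K + 1), a m * G (m * β)) h (circ_Cs_int hp2 c)
    (by simpa only [norm_neg] using s1)
  have s4 := circ_approx (fun β => Cs c β - Cs c (4 * β)) F G (by simp) (by simp [hF, hG0]) hG0
    (fun χ => Lw χ (Wr r)) (fun χ hχ => ⟨mh_four hp2 _ χ hχ, by
      have := mh_four hp2 (fun j => ((2 * g j : ℝ) : ℂ)) χ hχ
      simpa only [hG, mul_sub, Complex.ofReal_sub] using this⟩)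
    (fun χ => by
      rw [circ_mh c hr0 hr1, hF, mh_sub]
      ring) hx hL _ a hLs
  have s5 := single_le_sum (f := fun β => ‖(ψ p (h * β) - 1) *
    -∑ m ∈ range (K + 1), a m * G (m * β)‖ ^ 2) (fun β _ => sq_nonneg _) (mem_univ i)
  simp only [mul_neg, norm_neg, sub_neg_eq_add] at s3 s5
  have s6 := pow_le_pow_left₀ (by positivity) s2 2
  set v : ZMod p → ℝ := fun j => 2 + 2 * P * |fr c 1 j| with hv
  have e1 : ∀ j, j ≠ 0 → (fr c r j - g j) ^ 2 ≤ v j := fun j hj => by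
    have e2 := sq_le_sq' (abs_le.1 (hrf j hj)).1 (abs_le.1 (hrf j hj)).2
    have e3 : (fr c 1 j - g j) ^ 2 ≤ P * |fr c 1 j| := by
      simp only [hg]
      split_ifs with h
      · rw [sub_self, zero_pow two_ne_zero]
        positivity
      · rw [sub_zero, ← sq_abs, sq]
        exact mul_le_mul_of_nonneg_right (not_lt.1 h) (abs_nonneg _)
    simp only [hv]
    nlinarith [sq_nonneg (fr c r j - fr c 1 j - (fr c 1 j - g j))]
  have e2 : ∀ j ∈ univ, ‖F j‖ ^ 2 ≤ 8 * (v j + v (4 * j)) := fun j _ => by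
    rcases eq_or_ne j 0 with rfl | hj
    · simp only [hF, hG0, mul_zero, sub_self, hv]
      simp only [Complex.ofReal_zero, sub_self, norm_zero, ne_eq, OfNat.ofNat_ne_zero,
        not_false_eq_true, zero_pow]
      positivity
    · simp only [hF, hG]
      rw [← Complex.ofReal_sub, Complex.norm_real, Real.norm_eq_abs, sq_abs]
      nlinarith [e1 j hj, e1 _ (mul_ne_zero h4 hj),
        sq_nonneg (fr c r j - g j + (fr c r (4 * j) - g (4 * j)))]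
  have e3 : ∑ j, ‖F j‖ ^ 2 ≤ 64 * H * x ^ 4 * p ^ 2 := by
    refine (sum_le_sum e2).trans ?_
    rw [← mul_sum, sum_add_distrib, hdil v, hv, sum_add_distrib, ← mul_sum, sum_const, card_univ,
      ZMod.card, nsmul_eq_mul]
    have e4 : 1 ≤ x ^ 4 * p := by rwa [← inv_mul_cancel₀ hp.ne', mul_le_mul_iff_left₀ hp]
    have e5 : P * ∑ j, |fr c 1 j| ≤ x ^ 4 * p * (H * p) :=
      mul_le_mul hP h1 (sum_nonneg fun _ _ => abs_nonneg _) (by positivity)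
    have e6 : (p : ℝ) ≤ x ^ 4 * p * (H * p) := by
      have := mul_le_mul e4 (le_mul_of_one_le_left hp.le hH) hp.le (by positivity)
      rwa [one_mul] at this
    nlinarith
  have e4 : 2 * (x ^ 2)⁻¹ * ∑ j, ‖F j‖ ^ 2 ≤ 128 * H * x ^ 2 * p ^ 2 :=
    calc _ ≤ 2 * (x ^ 2)⁻¹ * (64 * H * x ^ 4 * p ^ 2) := by gcongr
      _ = _ := by field_simp; ring
  have e5 : 2 * (∑ β, ‖G β‖) ^ 2 * (8 / (K + 1) + 112 * τ ^ 2) ≤
      32 * H ^ 2 * (8 / (K + 1) + 112 * τ ^ 2) * p ^ 2 :=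
    calc _ ≤ 2 * (4 * H * p) ^ 2 * (8 / (K + 1) + 112 * τ ^ 2) := by gcongr
      _ = _ := by ring
  have e6 := mul_lt_mul_of_pos_right hfin (pow_pos hp 2)
  rw [← mul_pow, div_mul_eq_mul_div] at e6
  linarith

theorem circ_LogC (n : ℕ → ℤ) (j : ℕ) :
    LogC p n j = fr (fun k : ZMod p => if k = 0 then 0 else n k.val) 1 (j : ZMod p) := by
  have hp := (Fact.out : p.Prime).pos
  rw [fr, ← circ_sum_range, LogC, range_eq_Ico, sum_eq_sum_Ico_succ_bot hp]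
  simp only [Nat.cast_zero, if_true, Int.cast_zero, zero_mul, zero_add]
  refine sum_congr rfl fun i hi => ?_
  rw [mem_Ico] at hi
  rw [if_neg, ZMod.val_cast_of_lt hi.2, ← ψ_int]
  · simp
  · rw [ZMod.natCast_eq_zero_iff]
    exact Nat.not_dvd_of_pos_of_lt hi.1 hi.2

omit [Fact p.Prime] in
theorem circ : SCirc := by
  intro H₀ η θ hη hθ
  obtain ⟨H, hH, hH0⟩ : ∃ H : ℝ, 1 ≤ H ∧ H₀ ≤ H := ⟨max 1 H₀, le_max_left _ _, le_max_right _ _⟩
  obtain ⟨s, hs, hs1, hsθ⟩ : ∃ s : ℝ, 0 < s ∧ 4 * s ≤ 1 ∧ θ ≤ 1 - 4 * s :=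
    ⟨min (1 / 4) ((1 - θ) / 4), lt_min (by norm_num) (by linarith),
      by linarith [min_le_left (1 / 4 : ℝ) ((1 - θ) / 4)],
      by linarith [min_le_right (1 / 4 : ℝ) ((1 - θ) / 4)]⟩
  set d : ℝ := (η / (32 * H)) ^ 2 / 12 with hd
  have hd0 : 0 < d := by positivity
  obtain ⟨K, hK⟩ := exists_nat_gt (max 1 (256 * H ^ 2 / d))
  have hK1 : 1 ≤ K := by exact_mod_cast ((le_max_left _ _).trans hK.le)
  have hK2 : 32 * H ^ 2 * (8 / (K + 1)) ≤ d := by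
    have := (div_lt_iff₀ hd0).1 ((le_max_right _ _).trans_lt hK)
    rw [← mul_div_assoc, div_le_iff₀ (by positivity)]
    nlinarith
  obtain ⟨τ, hτ0, hτ, hτ1⟩ : ∃ τ : ℝ, 0 < τ ∧ τ ≤ 1 / 2 ∧ 32 * H ^ 2 * (112 * τ ^ 2) ≤ d := by
    refine ⟨min (1 / 2) (d / (3584 * H ^ 2)), lt_min (by norm_num) (by positivity),
      min_le_left _ _, ?_⟩
    have e1 := min_le_left (1 / 2 : ℝ) (d / (3584 * H ^ 2))
    have e2 := (le_div_iff₀ (by positivity)).1 (min_le_right (1 / 2 : ℝ) (d / (3584 * H ^ 2)))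
    have e3 : 0 < min (1 / 2 : ℝ) (d / (3584 * H ^ 2)) := lt_min (by norm_num) (by positivity)
    nlinarith
  obtain ⟨M, hM⟩ := exists_nat_ge (2 * H / η)
  obtain ⟨Q, hQ⟩ := exists_nat_ge (256 * H * K.factorial)
  have t1 : Tendsto (fun y : ℝ => y ^ (-s)) atTop (𝓝 0) := tendsto_rpow_neg_atTop hs
  have t2 : Tendsto (fun y : ℝ => 9 ^ 4 * 24 * y ^ (-s) * Real.log y ^ 9) atTop (𝓝 0) := by
    have := (isLittleO_log_rpow_rpow_atTop 9 hs).tendsto_div_nhds_zero.const_mul (9 ^ 4 * 24)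
    rw [mul_zero] at this
    refine this.congr' ((eventually_gt_atTop 0).mono fun y hy => ?_)
    simp only
    rw [Real.rpow_neg hy.le, Real.rpow_ofNat]
    ring
  have t3 : Tendsto (fun y : ℝ => 128 * H * (y ^ (-s)) ^ 2) atTop (𝓝 0) := by
    simpa using (t1.pow 2).const_mul (128 * H)
  obtain ⟨p₀, hp₀⟩ := eventually_atTop.1 ((tendsto_natCast_atTop_atTop.eventually
    ((t2.eventually (gt_mem_nhds (pow_pos hτ0 4))).and (t3.eventually (gt_mem_nhds hd0)))).and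
    ((eventually_gt_atTop (Q ^ M)).and ((eventually_gt_atTop K).and (eventually_ge_atTop 3))))
  refine ⟨p₀, fun p hp hpp n h1 h2 j _ => ?_⟩
  obtain ⟨⟨u1, u2⟩, u3, u4, u5⟩ := hp₀ p hpp
  have := Fact.mk hp
  have hp0 : (0 : ℝ) < p := by positivity
  have hp1 : (1 : ℝ) ≤ p := by exact_mod_cast hp.one_le
  have hx4 : ((p : ℝ) ^ (-s)) ^ 4 = (p : ℝ) ^ (-(4 * s)) := by
    rw [← Real.rpow_natCast, ← Real.rpow_mul hp0.le]
    congr 1
    push_cast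
    ring
  have hz : ∀ c : ZMod p → ℤ, fr c 1 0 = 0 := fun c => by simp [fr]
  simp only [circ_LogC] at h1 h2 ⊢
  refine circ_core _ (by simp) hH ?_ (fun i hi => ?_) ?_ (by positivity) K M Q hK1
    (by rwa [div_le_iff₀' hη] at hM) hQ u3 u4 (Real.rpow_pos_of_pos hp0 _) ?_ u5 hτ0 hτ u1.le ?_ _
  · rw [← circ_sum_range, range_eq_Ico, sum_eq_sum_Ico_succ_bot hp.pos, Nat.cast_zero, hz,
      abs_zero, zero_add]
    exact h1.trans (mul_le_mul_of_nonneg_right hH0 hp0.le)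
  · have hi0 : i ≠ 0 := by
      rintro rfl
      rw [hz, abs_zero] at hi
      exact (Real.rpow_pos_of_pos hp0 θ).not_gt hi
    have := h2 i.val (mem_Ico.2 ⟨ZMod.val_pos.2 hi0, ZMod.val_lt i⟩)
    push_cast at this
    rw [ZMod.natCast_zmod_val] at this
    exact this hi
  · rw [hx4, ← Real.rpow_add_one hp0.ne']
    exact Real.rpow_le_rpow_of_exponent_le hp1 (by linarith)
  · rw [hx4, ← Real.rpow_neg_one]
    exact Real.rpow_le_rpow_of_exponent_le hp1 (by linarith)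
  · rw [mul_add (32 * H ^ 2)]
    linarith

end Pool.Agent.MP_c1891a_nt.H91
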