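import Pool.Agent.MP_c1891a_nt.H91.Main

/-
Transfer from the algebraic closure of the rationals to the complex conjugates.
-/

namespace Pool.Agent.MP_c1891a_nt.H91

open Finset Polynomial

variable {K : Type*} [Field K] [CharZero K] [Algebra.IsAlgebraic ℚ K]

theorem final_hom {p : ℕ} (hp : p.Prime) {ζ : K} (hζ : IsPrimitiveRoot ζ p)
    {j : ℕ} (hj : ¬ p ∣ j) : ∃ φ : K →ₐ[ℚ] ℂ, φ ζ = E p j := by
  have h1 : IsPrimitiveRoot (E p j) p := dfc_E_prim hp.pos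
    (Nat.isCoprime_iff_coprime.2 ((Nat.Prime.coprime_iff_not_dvd hp).2 hj).symm)
  refine IntermediateField.exists_algHom_of_splits_of_aeval
    (fun s => ⟨Algebra.IsIntegral.isIntegral s, IsAlgClosed.splits _⟩) ?_
  rw [← cyclotomic_eq_minpoly_rat hζ hp.pos, cyclotomic_eq_minpoly_rat h1 hp.pos]
  exact minpoly.aeval _ _

theorem final_prod {p : ℕ} (hp : p.Prime) {i : ℕ} (hi : i ∈ Ico 1 p) :
    ∏ j ∈ Ico 1 p, (1 - E p (i * j)) = p := by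
  have h1 : IsPrimitiveRoot (E p i) p := dfc_E_prim hp.pos
    (Nat.isCoprime_iff_coprime.2 ((Nat.Prime.coprime_iff_not_dvd hp).2
      (Nat.not_dvd_of_pos_of_lt (mem_Ico.1 hi).1 (mem_Ico.1 hi).2)).symm)
  obtain ⟨q, rfl⟩ : ∃ q, p = q + 1 := ⟨p - 1, by have := hp.pos; omega⟩
  rw [prod_Ico_eq_prod_range, Nat.cast_add_one, ← h1.prod_one_sub_pow_eq_order,
    Nat.add_sub_cancel]
  exact prod_congr rfl fun j _ => by rw [dfc_E_mul, zpow_natCast, add_comm 1 j]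

theorem final_int {p : ℕ} (hp : p.Prime) {N : ℤ} (h : IsIntegral ℤ ((p : ℂ) ^ N)) : 0 ≤ N := by
  have h1 : IsIntegral ℤ ((p : ℚ) ^ N) := by
    rw [← isIntegral_algebraMap_iff (B := ℂ) (algebraMap ℚ ℂ).injective]
    simpa using h
  obtain ⟨m, hm⟩ := IsIntegrallyClosed.isIntegral_iff.1 h1
  have hp1 : (1 : ℚ) < p := by exact_mod_cast hp.one_lt
  have h2 : (0 : ℚ) < m := by
    rw [show (m : ℚ) = (p : ℚ) ^ N from hm]
    positivity
  have h3 : (1 : ℚ) ≤ m := by exact_mod_cast (by exact_mod_cast h2 : (0 : ℤ) < m)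
  rwa [show (m : ℚ) = (p : ℚ) ^ N from hm, one_le_zpow_iff_right₀ hp1] at h3

theorem final_coprime {k c : ℤ} (hk : k ≠ 0) {s : K} (hs : IsIntegral ℤ s)
    (h0 : (k : K) + c * s ≠ 0)
    (h : IsIntegral ℤ ((k : K) + c * s)⁻¹) : IsCoprime k c := by
  rw [Int.isCoprime_iff_gcd_eq_one]
  by_contra h1
  obtain ⟨l, hl, hd⟩ := Nat.exists_prime_and_dvd h1
  obtain ⟨k', rfl⟩ := (Int.natCast_dvd_natCast.2 hd).trans (Int.gcd_dvd_left k c)
  obtain ⟨c', rfl⟩ := (Int.natCast_dvd_natCast.2 hd).trans (Int.gcd_dvd_right _ c)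
  have hl0 : (l : K) ≠ 0 := by exact_mod_cast hl.ne_zero
  have h2 : IsIntegral ℤ ((l : K)⁻¹) := by
    have := h.mul ((isIntegral_intCast k').add ((isIntegral_intCast c').mul hs))
    push_cast at h0 this
    rw [mul_assoc, ← mul_add] at h0 this
    rwa [mul_inv, mul_assoc, inv_mul_cancel₀ (right_ne_zero_of_mul h0), mul_one] at this
  obtain ⟨φ⟩ : Nonempty (K →ₐ[ℚ] ℂ) := ⟨IsAlgClosed.lift⟩
  have h3 := final_int hl (N := -1) (by simpa using h2.map (φ.restrictScalars ℤ))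
  omega

theorem final_adm (hBP : SBP) (hT : STwo) (hD : SDef) {k c : ℤ} (hk : k ≠ 0) (hkc : |k| < 4 * c)
    (E₀ : ℕ) : ∃ B : ℕ, ∀ p : ℕ, p.Prime → ∀ ζ x y : K, IsPrimitiveRoot ζ p →
      x ^ p = 1 → y ^ p = 1 → PV k c x y ≠ 0 → IsIntegral ℤ (PV k c x y)⁻¹ →
      ∀ e : ℕ, 1 ≤ e → e ≤ E₀ → ∀ (n : ℕ → ℤ) (ε : K), ε ^ 2 = 1 →
      (ε * PV k c x y) ^ e = ∏ i ∈ Ico 1 p, (1 - ζ ^ i) ^ n i →
      ∃ a b : ℤ, (a ≠ 0 ∨ b ≠ 0) ∧ |a| ≤ B ∧ |b| ≤ B ∧ x ^ a * y ^ b = 1 := by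
  have hint : ∀ {p : ℕ}, p.Prime → ∀ x y : K, x ^ p = 1 → y ^ p = 1 →
      IsIntegral ℤ (x + x⁻¹ + y + y⁻¹) := fun {p} hp x y hx hy => by
    have : ∀ x : K, x ^ p = 1 → IsIntegral ℤ x := fun x hx =>
      IsIntegral.of_pow hp.pos (hx ▸ isIntegral_one)
    exact (((this x hx).add (this _ (by rw [inv_pow, hx, inv_one]))).add (this y hy)).add
      (this _ (by rw [inv_pow, hy, inv_one]))
  by_cases hco : IsCoprime k c
  swap
  · exact ⟨0, fun p hp ζ x y _ hx hy h0 h1 =>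
      absurd (final_coprime hk (hint hp x y hx hy) h0 h1) hco⟩
  obtain ⟨B, p₀, h⟩ := main_core hBP hT hD ⟨hk, hkc, hco⟩ E₀
  refine ⟨max B p₀, fun p hp ζ x y hζ hx hy h0 h1 e he1 he n ε hε hu => ?_⟩
  rcases lt_or_ge p p₀ with hpp | hpp
  · refine ⟨p, 0, Or.inl (by exact_mod_cast hp.ne_zero), ?_, by simp, by simpa using hx⟩
    rw [Nat.abs_cast]
    exact_mod_cast hpp.le.trans (le_max_right _ _)
  have := NeZero.mk hp.ne_zero
  obtain ⟨a, -, rfl⟩ := hζ.eq_pow_of_pow_eq_one hx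
  obtain ⟨b, -, rfl⟩ := hζ.eq_pow_of_pow_eq_one hy
  have hnd : ∀ j ∈ Ico 1 p, ¬ p ∣ j := fun j hj =>
    Nat.not_dvd_of_pos_of_lt (mem_Ico.1 hj).1 (mem_Ico.1 hj).2
  have key : ∀ j : ℕ, ¬ p ∣ j → ∃ v : ℂ, ‖v‖ = ‖PV k c (E p (a * j)) (E p (b * j))‖ ∧ v ≠ 0 ∧
      IsIntegral ℤ v ∧ IsIntegral ℤ v⁻¹ ∧ v ^ e = ∏ i ∈ Ico 1 p, (1 - E p (i * j)) ^ n i :=
    fun j hj => by
      obtain ⟨φ, hφ⟩ := final_hom hp hζ hj
      have e1 : ∀ i : ℕ, φ (ζ ^ i) = E p (i * j) := fun i => by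
        rw [map_pow, hφ, mul_comm, dfc_E_mul, zpow_natCast]
      have e2 : φ (PV k c (ζ ^ a) (ζ ^ b)) = PV k c (E p (a * j)) (E p (b * j)) := by
        simp only [PV, map_add, map_mul, map_inv₀, map_intCast, e1]
      have e3 : IsIntegral ℤ (PV k c (ζ ^ a) (ζ ^ b)) :=
        (isIntegral_intCast k).add ((isIntegral_intCast c).mul (hint hp _ _ hx hy))
      rcases mul_self_eq_one_iff.1 (sq ε ▸ hε) with rfl | rfl
      all_goals
        refine ⟨φ (_ * PV k c (ζ ^ a) (ζ ^ b)), ?_, ?_, ?_, ?_, by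
          rw [← map_pow, hu]
          simp only [map_prod, map_zpow₀, map_sub, map_one, e1]⟩
        · simp [e2]
        · simpa using h0
        · simpa using e3.map (φ.restrictScalars ℤ)
        · simpa using h1.map (φ.restrictScalars ℤ)
  choose! v hv1 hv2 hv3 hv4 hv5 using key
  have hE : ∀ i ∈ Ico 1 p, ∀ j ∈ Ico 1 p, 1 - E p (i * j) ≠ 0 := fun i hi =>
    prod_ne_zero_iff.1 (by rw [final_prod hp hi]; exact_mod_cast hp.ne_zero)
  have e1 : (∏ j ∈ Ico 1 p, v j) ^ e = (p : ℂ) ^ ∑ i ∈ Ico 1 p, n i := by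
    rw [← prod_pow, prod_congr rfl fun j hj => hv5 j (hnd j hj), prod_comm,
      prod_congr rfl fun i hi => by rw [prod_zpow, final_prod hp hi]]
    induction (Ico 1 p) using Finset.cons_induction with
    | empty => simp
    | cons i s hi ih =>
      rw [prod_cons, sum_cons, ih, zpow_add₀ (by exact_mod_cast hp.ne_zero)]
  have e2 := final_int hp (e1 ▸ (IsIntegral.prod _ fun j hj => hv3 j (hnd j hj)).pow e)
  have e3 := final_int hp (N := -∑ i ∈ Ico 1 p, n i) (by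
    rw [zpow_neg, ← e1, ← inv_pow, ← prod_inv_distrib]
    exact (IsIntegral.prod _ fun j hj => hv4 j (hnd j hj)).pow e)
  have e4 : ‖∏ j ∈ Ico 1 p, v j‖ = 1 := by
    rw [show ∑ i ∈ Ico 1 p, n i = 0 by omega, zpow_zero] at e1
    exact Complex.norm_eq_one_of_pow_eq_one e1 (by omega)
  have e5 := h p hp hpp a b e he1 he n
    (fun j hj => norm_ne_zero_iff.1 (hv1 j (hnd j hj) ▸ norm_ne_zero_iff.2 (hv2 j (hnd j hj))))
    (fun j hj => by
      have e6 : ∀ i ∈ Ico 1 p, ‖1 - E p (i * j)‖ ^ n i ≠ 0 := fun i hi => by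
        refine zpow_ne_zero _ (norm_ne_zero_iff.2 ?_)
        have e7 : E p (i * j) = E p (i * (j % p : ℕ)) := dfc_E_congr hp.pos (by
          rw [← mul_sub]
          exact Dvd.dvd.mul_left (Nat.modEq_iff_dvd.1 (Nat.mod_modEq j p)) _)
        rw [e7]
        exact hE i hi _ (mem_Ico.2 ⟨Nat.pos_of_ne_zero fun h => hj (Nat.dvd_of_mod_eq_zero h),
          Nat.mod_lt _ hp.pos⟩)
      rw [← hv1 j hj, ← Real.log_pow, ← norm_pow, hv5 j hj, norm_prod, LogC]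
      simp only [norm_zpow]
      rw [Real.log_prod e6]
      simp only [Real.log_zpow])
    (by
      rw [← sum_congr rfl fun j hj => by rw [← hv1 j (hnd j hj)],
        ← Real.log_prod fun j hj => norm_ne_zero_iff.2 (hv2 j (hnd j hj)), ← norm_prod, e4,
        Real.log_one])
  simp only [NoRel, not_forall, not_and_or] at e5
  obtain ⟨m, m', hm, hm', hd, hne⟩ := e5
  refine ⟨m, m', hne, hm.trans (by exact_mod_cast le_max_left _ _),
    hm'.trans (by exact_mod_cast le_max_left _ _), ?_⟩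
  rw [← zpow_natCast, ← zpow_natCast, ← zpow_mul, ← zpow_mul,
    ← zpow_add₀ (hζ.ne_zero hp.ne_zero), hζ.zpow_eq_one_iff_dvd, mul_comm _ m, mul_comm _ m']
  exact hd

theorem final (hBP : SBP) (hT : STwo) (hD : SDef) (k c : ℤ) (hk : k ≠ 0) (hkc : |k| < 4 * |c|)
    (E₀ : ℕ) : ∃ B : ℕ, ∀ p : ℕ, p.Prime → ∀ ζ x y u : AlgebraicClosure ℚ, IsPrimitiveRoot ζ p →
      x ^ p = 1 → y ^ p = 1 → u = k + c * (x + x⁻¹ + y + y⁻¹) →
      u ≠ 0 ∧ IsIntegral ℤ u ∧ IsIntegral ℤ u⁻¹ →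
      (∃ e : ℕ, 1 ≤ e ∧ e ≤ E₀ ∧ ∃ n : ℕ → ℤ, u ^ e = ∏ i ∈ Ico 1 p, (1 - ζ ^ i) ^ n i) →
      ∃ a b : ℤ, (a ≠ 0 ∨ b ≠ 0) ∧ |a| ≤ B ∧ |b| ≤ B ∧ x ^ a * y ^ b = 1 := by
  have : Algebra.IsAlgebraic ℚ (AlgebraicClosure ℚ) := by
    have h := AlgebraicClosure.isAlgebraic ℚ
    rwa [Subsingleton.elim (AlgebraicClosure.instAlgebra ℚ) DivisionRing.toRatAlgebra] at h
  rcases le_total 0 c with hc | hc
  · obtain ⟨B, h⟩ := final_adm (K := AlgebraicClosure ℚ) hBP hT hD hk (abs_of_nonneg hc ▸ hkc) E₀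
    refine ⟨B, fun p hp ζ x y u hζ hx hy hu ⟨h0, _, h1⟩ ⟨e, he1, he, n, hn⟩ => ?_⟩
    subst hu
    exact h p hp ζ x y hζ hx hy h0 h1 e he1 he n 1 (one_pow 2) (by rw [one_mul]; exact hn)
  · obtain ⟨B, h⟩ := final_adm (K := AlgebraicClosure ℚ) hBP hT hD (k := -k) (c := -c) (neg_ne_zero.2 hk)
      (by rwa [abs_neg, ← abs_of_nonpos hc]) E₀
    refine ⟨B, fun p hp ζ x y u hζ hx hy hu ⟨h0, _, h1⟩ ⟨e, he1, he, n, hn⟩ => ?_⟩
    have e1 : PV (-k) (-c) x y = -u := by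
      rw [hu, PV]
      push_cast
      ring
    exact h p hp ζ x y hζ hx hy (e1 ▸ neg_ne_zero.2 h0) (by rw [e1, inv_neg]; exact h1.neg) e he1
      he n (-1) (by simp) (by rw [e1, neg_one_mul, neg_neg]; exact hn)

end Pool.Agent.MP_c1891a_nt.H91
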