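import Pool.Agent.MP_c1891a_nt.H91.CircE
import Pool.Agent.MP_c1891a_nt.H52.Def

/-
Assembly: a unit value has a few exponentially small conjugates, which a circular unit cannot have.
-/

namespace Pool.Agent.MP_c1891a_nt.H91

open Finset Filter Topology

theorem main_norel {p B : ℕ} (hp : p.Prime) {a b j : ℤ} (hj : ¬ (p : ℤ) ∣ j)
    (h : NoRel p B a b) : NoRel p B (a * j) (b * j) := fun m n hm hn hd => by
  refine h m n hm hn ((Int.Prime.dvd_mul' hp ?_).resolve_right (by simpa using hj))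
  rwa [add_mul, mul_assoc, mul_assoc]

theorem main_mono {p B B' : ℕ} (hB : B ≤ B') {a b : ℤ} (h : NoRel p B' a b) : NoRel p B a b :=
  fun m n hm hn => h m n (hm.trans (by exact_mod_cast hB)) (hn.trans (by exact_mod_cast hB))

theorem main_sign {p : ℕ} (hp : 0 < p) {x y ε : ℤ} (hε : ε = 1 ∨ ε = -1)
    (h : (p : ℤ) ∣ x - ε * y) : E p x + (E p x)⁻¹ = E p y + (E p y)⁻¹ := by
  rw [dfc_E_congr hp h, mul_comm, dfc_E_mul]
  rcases hε with rfl | rfl
  · rw [zpow_one]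
  · rw [zpow_neg_one, inv_inv, add_comm]

theorem main_norm_le {k c : ℤ} (hA : Adm k c) (p : ℕ) (x y : ℤ) :
    ‖PV k c (E p x) (E p y)‖ ≤ 8 * c := by
  have h1 : ∀ x : ℤ, ‖E p x‖ = 1 := fun x => by
    have : E p x = Complex.exp ((2 * Real.pi * x / p : ℝ) * Complex.I) := by
      unfold E
      congr 1
      push_cast
      ring
    rw [this, Complex.norm_exp_ofReal_mul_I]
  have h2 : ‖E p x + (E p x)⁻¹ + E p y + (E p y)⁻¹‖ ≤ 4 := by
    refine (norm_add_le _ _).trans ((add_le_add_left (norm_add₃_le) _).trans ?_)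
    simp only [norm_inv, h1]
    norm_num
  have h3 : (|k| : ℝ) < 4 * c := by exact_mod_cast hA.2.1
  have h4 : (0 : ℝ) < c := by linarith [abs_nonneg (k : ℝ)]
  unfold PV
  refine (norm_add_le _ _).trans ?_
  rw [norm_mul, Complex.norm_intCast, Complex.norm_intCast, abs_of_pos h4]
  nlinarith

/-- the very small conjugates of a unit value are exponentially small and there is one. -/
theorem main_spike (hBP : SBP) (hT : STwo) (hD : SDef) {k c : ℤ} (hA : Adm k c) :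
    ∃ η : ℝ, 0 < η ∧ ∃ B p₀ : ℕ, ∀ p : ℕ, p.Prime → p₀ ≤ p → ∀ a b : ℤ, NoRel p B a b →
      (∀ j ∈ Ico 1 p, PV k c (E p (a * j)) (E p (b * j)) ≠ 0) →
      ∑ j ∈ Ico 1 p, Real.log ‖PV k c (E p (a * j)) (E p (b * j))‖ ≤ 0 →
      (∃ j ∈ Ico 1 p, Real.log ‖PV k c (E p (a * j)) (E p (b * j))‖ ≤ -(η * p)) ∧
      ∀ j ∈ Ico 1 p,
        ‖PV k c (E p (a * j)) (E p (b * j))‖ ≤ Real.exp (-(p : ℝ) ^ (151 / 200 : ℝ)) →
        Real.log ‖PV k c (E p (a * j)) (E p (b * j))‖ ≤ -(η * p) ∧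
          Real.exp (-(p : ℝ) ^ (151 / 200 : ℝ)) <
            ‖PV k c (E p (a * (4 * j))) (E p (b * (4 * j)))‖ := by
  classical
  obtain ⟨C, A, p₁, h1⟩ := hBP k c hA
  obtain ⟨B₁, p₂, h2⟩ := hT k c hA
  obtain ⟨m₀, hm₀, B₂, p₃, h3⟩ := hD k c hA A
  have hc : (1 : ℝ) ≤ c := by
    have := hA.2.1
    have := abs_nonneg k
    exact_mod_cast (by omega : 1 ≤ c)
  have t1 : Tendsto (fun y : ℝ => Real.log (8 * c) * y ^ (-1 : ℝ) + C * y ^ (-(41 / 1800) : ℝ))
      atTop (𝓝 0) := by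
    simpa using ((tendsto_rpow_neg_atTop one_pos).const_mul (Real.log (8 * c))).add
      ((tendsto_rpow_neg_atTop (show (0 : ℝ) < 41 / 1800 by norm_num)).const_mul C)
  obtain ⟨p₄, h4⟩ := eventually_atTop.1 (tendsto_natCast_atTop_atTop.eventually
    (t1.eventually (gt_mem_nhds (half_pos hm₀))))
  refine ⟨m₀ / 8, by positivity, max 5 (max B₁ B₂), max (max p₁ p₂) (max (max p₃ p₄) 3),
    fun p hp hpp a b hr hne hsum => ?_⟩
  simp only [max_le_iff] at hpp
  have hp0 : (0 : ℝ) < p := by exact_mod_cast hp.pos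
  have hp1 : (1 : ℝ) ≤ p := by exact_mod_cast hp.one_le
  have hr5 := main_mono (le_max_left _ _) hr
  have hr1 := main_mono ((le_max_left _ _).trans (le_max_right _ _)) hr
  have hr2 := main_mono ((le_max_right _ _).trans (le_max_right _ _)) hr
  have hnd : ∀ j ∈ Ico 1 p, ¬ (p : ℤ) ∣ j := fun j hj h =>
    Nat.not_dvd_of_pos_of_lt (mem_Ico.1 hj).1 (mem_Ico.1 hj).2 (Int.natCast_dvd_natCast.1 h)
  have ha : ¬ (p : ℤ) ∣ a := fun h =>
    one_ne_zero (hr5 1 0 (by norm_num) (by norm_num) (by simpa using h)).1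
  set w : ℕ → ℝ := fun j => ‖PV k c (E p (a * j)) (E p (b * j))‖ with hw
  set s : ℝ := (p : ℝ) ^ (151 / 200 : ℝ) with hs
  have hs0 : 0 ≤ s := by positivity
  set T := (Ico 1 p).filter fun j => w j ≤ Real.exp (-s) with hTd
  have hτ : ((p : ℝ) ^ A)⁻¹ ≤ 1 := inv_le_one_of_one_le₀ (one_le_pow₀ hp1)
  have hτ0 : 0 < ((p : ℝ) ^ A)⁻¹ := by positivity
  have mass : ∀ Λ : ℝ, 0 ≤ Λ → T.card ≤ 4 → (∀ j ∈ T, -Real.log (w j) ≤ Λ) →
      m₀ / 8 * p < Λ := fun Λ hΛ hcard hT' => by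
    set S := (range p).filter fun j => w j ≤ ((p : ℝ) ^ A)⁻¹ with hS
    have e1 := h1 p hp hpp.1.1 a b (fun h => ha h.1) S (filter_subset _ _)
      fun j hj => (mem_filter.1 hj).2
    have e2 := h3 p hp hpp.2.1.1 a b hr2
    have e3 : ∀ j ∈ Ico 1 p, Real.log (max (w j) ((p : ℝ) ^ A)⁻¹) ≤ Real.log (w j) +
        ((if j ∈ S then s else 0) + if j ∈ T then Λ else 0) := fun j hj => by
      have e4 : 0 < w j := norm_pos_iff.2 (hne j hj)
      by_cases e5 : j ∈ S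
      · have e6 : Real.log (max (w j) ((p : ℝ) ^ A)⁻¹) ≤ 0 := by
          rw [max_eq_right (mem_filter.1 e5).2]
          exact Real.log_nonpos hτ0.le hτ
        rw [if_pos e5]
        split_ifs with e7
        · linarith [hT' j e7]
        · have e8 : Real.exp (-s) < w j := not_le.1 fun h => e7 (mem_filter.2 ⟨hj, h⟩)
          have := (Real.lt_log_iff_exp_lt e4).2 e8
          linarith
      · have e6 : ((p : ℝ) ^ A)⁻¹ ≤ w j := (not_le.1 fun h =>
          e5 (mem_filter.2 ⟨mem_range.2 (mem_Ico.1 hj).2, h⟩)).le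
        rw [max_eq_left e6, if_neg e5]
        split_ifs <;> linarith
    have e4 := sum_le_sum e3
    rw [sum_add_distrib, sum_add_distrib, sum_ite_mem, sum_ite_mem, sum_const, sum_const,
      nsmul_eq_mul, nsmul_eq_mul] at e4
    have e5 : ((Ico 1 p ∩ S).card : ℝ) * s ≤ C * (p : ℝ) ^ (2 / 9 : ℝ) * s :=
      mul_le_mul_of_nonneg_right (le_trans (by exact_mod_cast card_le_card inter_subset_right) e1)
        hs0
    have e6 : ((Ico 1 p ∩ T).card : ℝ) * Λ ≤ 4 * Λ :=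
      mul_le_mul_of_nonneg_right
        (by exact_mod_cast (card_le_card inter_subset_right).trans hcard) hΛ
    have e7 : Real.log (max (w 0) ((p : ℝ) ^ A)⁻¹) ≤ Real.log (8 * c) :=
      Real.log_le_log (lt_max_of_lt_right hτ0) (max_le (main_norm_le hA p _ _) (by linarith))
    rw [range_eq_Ico, sum_eq_sum_Ico_succ_bot hp.pos] at e2
    have e8 := mul_lt_mul_of_pos_right (h4 p hpp.2.1.2) hp0
    have e9 : (p : ℝ) ^ (-(41 / 1800) : ℝ) * p = (p : ℝ) ^ (2 / 9 : ℝ) * s := by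
      rw [hs, ← Real.rpow_add_one hp0.ne', ← Real.rpow_add hp0]
      norm_num
    rw [add_mul, mul_assoc, mul_assoc, e9, Real.rpow_neg_one, inv_mul_cancel₀ hp0.ne'] at e8
    simp only [hw, zero_add] at e2 e4 e7
    linarith
  have sym : ∀ i ∈ T, ∀ j : ℤ, ¬ (p : ℤ) ∣ j →
      ‖PV k c (E p (a * j)) (E p (b * j))‖ ≤ Real.exp (-s) → _ := fun i hi j hj h =>
    h2 p hp hpp.1.2 _ _ _ _ (main_norel hp (hnd i (mem_filter.1 hi).1) hr1)
      (main_norel hp hj hr1) (mem_filter.1 hi).2 h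
  have spike : ∀ i ∈ T, Real.log (w i) ≤ -(m₀ / 8 * p) := fun i hi => by
    have e1 : ∀ j ∈ T, w j = w i ∧ ((a * j : ℤ) : ZMod p) ∈
        ({((a * i : ℤ) : ZMod p), -((a * i : ℤ) : ZMod p), ((b * i : ℤ) : ZMod p),
          -((b * i : ℤ) : ZMod p)} : Finset (ZMod p)) := fun j hj => by
      obtain ⟨ε, ε', hε, hε', h⟩ := sym i hi j (hnd j (mem_filter.1 hj).1) (mem_filter.1 hj).2
      simp only [hw, PV, add_assoc _ (E p (b * _))]
      rcases h with ⟨e2, e3⟩ | ⟨e2, e3⟩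
      · refine ⟨by rw [main_sign hp.pos hε e2, main_sign hp.pos hε' e3], ?_⟩
        rw [← ZMod.intCast_zmod_eq_zero_iff_dvd, Int.cast_sub, sub_eq_zero, Int.cast_mul ε] at e2
        rw [e2]
        rcases hε with rfl | rfl <;> simp
      · refine ⟨by rw [main_sign hp.pos hε e2, main_sign hp.pos hε' e3,
          add_comm (E p (b * _) + _)], ?_⟩
        rw [← ZMod.intCast_zmod_eq_zero_iff_dvd, Int.cast_sub, sub_eq_zero, Int.cast_mul ε] at e2
        rw [e2]
        rcases hε with rfl | rfl <;> simp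
    have e2 : T.card ≤ 4 := by
      refine (card_le_card_of_injOn (fun j : ℕ => ((a * j : ℤ) : ZMod p))
        (fun j hj => (e1 j hj).2) fun j hj j' hj' h => ?_).trans card_le_four
      have e3 : (p : ℤ) ∣ a * (j' - j) := by
        rw [mul_sub]
        exact (ZMod.intCast_eq_intCast_iff_dvd_sub _ _ _).1 h
      have e4 := (Int.Prime.dvd_mul' hp e3).resolve_left (by simpa using ha)
      have e5 := mem_Ico.1 (mem_filter.1 hj).1
      have e6 := mem_Ico.1 (mem_filter.1 hj').1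
      have := Int.eq_zero_of_abs_lt_dvd (by simpa using e4)
        (show |(j' : ℤ) - j| < p by rw [abs_lt]; omega)
      omega
    have e3 : Real.log (w i) ≤ 0 := Real.log_nonpos (norm_nonneg _)
      ((mem_filter.1 hi).2.trans (Real.exp_le_one_iff.2 (by linarith)))
    linarith [mass (-Real.log (w i)) (by linarith) e2 fun j hj => by rw [(e1 j hj).1]]
  refine ⟨?_, fun j hj h => ⟨spike j (mem_filter.2 ⟨hj, h⟩), not_le.1 fun h' => ?_⟩⟩
  · rcases T.eq_empty_or_nonempty with h | ⟨i, hi⟩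
    · have := mass 0 le_rfl (by simp [h]) (by simp [h])
      exact absurd this (not_lt.2 (by positivity))
    · exact ⟨i, (mem_filter.1 hi).1, spike i hi⟩
  · have e1 : ¬ (p : ℤ) ∣ 4 * j := fun h => by
      refine hnd j hj ((Int.Prime.dvd_mul' hp h).elim (fun h => ?_) (by simp))
      have e2 : p ∣ 2 ^ 2 := by exact_mod_cast h
      have := Nat.le_of_dvd two_pos (hp.dvd_of_dvd_pow e2)
      omega
    obtain ⟨ε, ε', hε, -, ⟨e2, -⟩ | ⟨e2, -⟩⟩ := sym j (mem_filter.2 ⟨hj, h⟩) _ e1 h'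
    · have := (main_norel hp (hnd j hj) hr5 (4 - ε) 0 (by rcases hε with rfl | rfl <;> norm_num)
        (by norm_num) (by convert e2 using 1; ring)).1
      omega
    · have := (main_norel hp (hnd j hj) hr5 4 (-ε) (by norm_num)
        (by rcases hε with rfl | rfl <;> norm_num) (by convert e2 using 1; ring)).1
      omega

theorem main_core (hBP : SBP) (hT : STwo) (hD : SDef) {k c : ℤ} (hA : Adm k c) (E₀ : ℕ) :
    ∃ B p₀ : ℕ, ∀ p : ℕ, p.Prime → p₀ ≤ p → ∀ a b : ℤ, ∀ e : ℕ, 1 ≤ e → e ≤ E₀ → ∀ n : ℕ → ℤ,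
      (∀ j ∈ Ico 1 p, PV k c (E p (a * j)) (E p (b * j)) ≠ 0) →
      (∀ j : ℕ, ¬ p ∣ j → LogC p n j = e * Real.log ‖PV k c (E p (a * j)) (E p (b * j))‖) →
      ∑ j ∈ Ico 1 p, Real.log ‖PV k c (E p (a * j)) (E p (b * j))‖ = 0 → ¬ NoRel p B a b := by
  obtain ⟨η, hη, B, p₁, h1⟩ := main_spike hBP hT hD hA
  obtain ⟨p₂, h2⟩ := circ (E₀ * (2 * Real.log (8 * c))) η (19 / 25) hη (by norm_num)
  have hc : (1 : ℝ) ≤ c := by
    have := hA.2.1
    have := abs_nonneg k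
    exact_mod_cast (by omega : 1 ≤ c)
  have hl : 0 ≤ Real.log (8 * c) := Real.log_nonneg (by linarith)
  obtain ⟨p₃, h3⟩ := eventually_atTop.1 (tendsto_natCast_atTop_atTop.eventually
    (((tendsto_rpow_atTop (show (0 : ℝ) < 1 / 200 by norm_num)).eventually_ge_atTop E₀).and
    (((tendsto_rpow_atTop (show (0 : ℝ) < 151 / 200 by norm_num)).eventually_ge_atTop
      (Real.log (8 * c))).and
    ((tendsto_rpow_atTop (show (0 : ℝ) < 6 / 25 by norm_num)).eventually_gt_atTop η⁻¹))))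
  refine ⟨B, max (max p₁ p₂) (max p₃ 3), fun p hp hpp a b e he1 he n hne hL hsum hr => ?_⟩
  simp only [max_le_iff] at hpp
  obtain ⟨⟨i, hi, hi1⟩, h4⟩ := h1 p hp hpp.1.1 a b hr hne hsum.le
  obtain ⟨u1, u2, u3⟩ := h3 p hpp.2.1
  have hp0 : (0 : ℝ) < p := by exact_mod_cast hp.pos
  have he1' : (1 : ℝ) ≤ e := by exact_mod_cast he1
  have he' : (e : ℝ) ≤ E₀ := by exact_mod_cast he
  have hnd : ∀ j ∈ Ico 1 p, ¬ p ∣ j := fun j hj =>
    Nat.not_dvd_of_pos_of_lt (mem_Ico.1 hj).1 (mem_Ico.1 hj).2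
  have hle : ∀ x y : ℤ, Real.log ‖PV k c (E p x) (E p y)‖ ≤ Real.log (8 * c) := fun x y => by
    rcases (norm_nonneg (PV k c (E p x) (E p y))).eq_or_lt with h | h
    · rwa [← h, Real.log_zero]
    · exact Real.log_le_log h (main_norm_le hA p x y)
  have big : ∀ t : ℝ, t ≤ -(η * p) → η * p ≤ |e * t| := fun t ht => by
    have := neg_abs_le (e * t)
    have : 0 < η * p := by positivity
    nlinarith
  have small : ∀ x y : ℤ, (p : ℝ) ^ (19 / 25 : ℝ) < |e * Real.log ‖PV k c (E p x) (E p y)‖| →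
      ‖PV k c (E p x) (E p y)‖ ≤ Real.exp (-(p : ℝ) ^ (151 / 200 : ℝ)) := fun x y h => by
    have e1 : (p : ℝ) ^ (19 / 25 : ℝ) = (p : ℝ) ^ (1 / 200 : ℝ) * (p : ℝ) ^ (151 / 200 : ℝ) := by
      rw [← Real.rpow_add hp0]
      norm_num
    rw [abs_mul, Nat.abs_cast, e1] at h
    have e2 : (p : ℝ) ^ (151 / 200 : ℝ) < |Real.log ‖PV k c (E p x) (E p y)‖| := by
      refine lt_of_mul_lt_mul_left (h.trans_le ?_) (Real.rpow_pos_of_pos hp0 _).le
      exact mul_le_mul_of_nonneg_right (he'.trans u1) (abs_nonneg _)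
    rcases (norm_nonneg (PV k c (E p x) (E p y))).eq_or_lt with h' | h'
    · rw [← h']
      exact (Real.exp_pos _).le
    · rw [← Real.log_le_iff_le_exp h']
      rcases lt_abs.1 e2 with e3 | e3 <;> linarith [hle x y]
  have h5 := h2 p hp hpp.1.2 n ?_ (fun j hj h => ?_) i hi
  · rw [hL i (hnd i hi)] at h5
    have e1 := (big _ hi1).trans h5
    have e2 : (p : ℝ) = (p : ℝ) ^ (6 / 25 : ℝ) * (p : ℝ) ^ (19 / 25 : ℝ) := by
      rw [← Real.rpow_add hp0]
      norm_num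
    have e3 := mul_lt_mul_of_pos_right ((inv_lt_iff_one_lt_mul₀' hη).1 u3)
      (Real.rpow_pos_of_pos hp0 (19 / 25))
    rw [mul_assoc, ← e2] at e3
    linarith
  · have e1 : ∀ j ∈ Ico 1 p, |LogC p n j| ≤ E₀ * (2 * Real.log (8 * c) -
        Real.log ‖PV k c (E p (a * j)) (E p (b * j))‖) := fun j hj => by
      rw [hL j (hnd j hj), abs_mul, Nat.abs_cast]
      refine mul_le_mul he' (abs_le.2 ⟨?_, ?_⟩) (abs_nonneg _) (Nat.cast_nonneg _) <;>
        linarith [hle (a * j) (b * j)]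
    refine (sum_le_sum e1).trans ?_
    rw [← mul_sum, sum_sub_distrib, hsum, sub_zero, sum_const, nsmul_eq_mul, Nat.card_Ico,
      mul_assoc, mul_comm _ (p : ℝ)]
    gcongr
    exact Nat.sub_le p 1
  · rw [hL j (hnd j hj)] at h ⊢
    obtain ⟨e1, e2⟩ := h4 j hj (small _ _ h)
    refine ⟨big _ e1, not_lt.1 fun h' => ?_⟩
    rw [hL (4 * j) fun h => ?_] at h'
    · push_cast at h'
      exact (small _ _ h').not_gt e2
    · refine hnd j hj ((hp.dvd_mul.1 h).resolve_left fun h => ?_)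
      have := Nat.le_of_dvd two_pos (hp.dvd_of_dvd_pow (show p ∣ 2 ^ 2 from h))
      omega

end Pool.Agent.MP_c1891a_nt.H91
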